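import Pool.Agent.W_c0ce05_h38.Pot

/-! # Asymptotics and the initial potential -/

set_option autoImplicit false

namespace C0ce

open Filter Topology

/-- TASK. Group the sets by cardinality (`Finset.sum_fiberwise` or `Finset.powersetCard`): the sum is
`∑ k ≤ q, (N choose k) * N ^ (q - k)`, and `N choose k ≤ N ^ k` (`Nat.choose_le_pow`). -/
theorem pot_one {N q : ℕ} : pot (N := N) q (fun _ => 1) ≤ ((q : ℝ) + 1) * (N : ℝ) ^ q := by
  classical
  unfold pot
  have hmaps : ∀ B ∈ Fam N q, B.card ∈ Finset.range (q + 1) := by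
    intro B hB
    rw [Finset.mem_range]
    exact Nat.lt_succ_of_le (Finset.mem_filter.1 hB).2
  rw [← Finset.sum_fiberwise_of_maps_to hmaps]
  have hinner : ∀ k ∈ Finset.range (q + 1),
      ∑ B ∈ (Fam N q).filter (fun B => B.card = k), cf q B * 1 ≤ (N : ℝ) ^ q := by
    intro k hk
    have hkq : k ≤ q := Nat.lt_succ_iff.1 (Finset.mem_range.1 hk)
    have h1 : ∑ B ∈ (Fam N q).filter (fun B => B.card = k), cf q B * 1 =
        (((Fam N q).filter (fun B => B.card = k)).card : ℝ) * (N : ℝ) ^ (q - k) := by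
      rw [← nsmul_eq_mul]
      refine Finset.sum_eq_card_nsmul fun B hB => ?_
      rw [mul_one]
      unfold cf
      rw [(Finset.mem_filter.1 hB).2]
    have h2 : ((Fam N q).filter (fun B => B.card = k)).card ≤ N ^ k := by
      have h3 : (Fam N q).filter (fun B => B.card = k) ⊆
          Finset.powersetCard k (Finset.univ : Finset (Fin N)) := by
        intro B hB
        rw [Finset.mem_powersetCard]
        exact ⟨Finset.subset_univ _, (Finset.mem_filter.1 hB).2⟩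
      refine (Finset.card_le_card h3).trans ?_
      rw [Finset.card_powersetCard, Finset.card_univ, Fintype.card_fin]
      exact Nat.choose_le_pow N k
    have h4 : (((Fam N q).filter (fun B => B.card = k)).card : ℝ) ≤ (N : ℝ) ^ k := by
      exact_mod_cast h2
    rw [h1]
    calc (((Fam N q).filter (fun B => B.card = k)).card : ℝ) * (N : ℝ) ^ (q - k) ≤
        (N : ℝ) ^ k * (N : ℝ) ^ (q - k) := mul_le_mul_of_nonneg_right h4 (by positivity)
      _ = (N : ℝ) ^ q := by rw [← pow_add, Nat.add_sub_of_le hkq]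
  calc _ ≤ ∑ _k ∈ Finset.range (q + 1), (N : ℝ) ^ q := Finset.sum_le_sum hinner
    _ = ((q : ℝ) + 1) * (N : ℝ) ^ q := by
      rw [Finset.sum_const, Finset.card_range, nsmul_eq_mul]
      push_cast
      ring

theorem Asy_tendsto : Tendsto (fun N : ℕ => Real.logb 2 N) atTop atTop :=
  (Real.tendsto_logb_atTop (by norm_num)).comp tendsto_natCast_atTop_atTop

theorem Asy_quad {A : ℝ} (hA : 0 < A) (B C : ℝ) :
    ∀ᶠ N : ℕ in atTop, 0 < A * Real.logb 2 N ^ 2 - B * Real.logb 2 N - C := by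
  filter_upwards [Asy_tendsto.eventually (eventually_ge_atTop (1 + (|B| + |C|) / A))] with N hN
  set L : ℝ := Real.logb 2 N with hL
  have h0 : 0 ≤ (|B| + |C|) / A := by positivity
  have h1 : 1 ≤ L := by linarith
  have h2 : A + (|B| + |C|) ≤ A * L := by
    have h3 : A * (1 + (|B| + |C|) / A) ≤ A * L := mul_le_mul_of_nonneg_left hN hA.le
    have h4 : A * (1 + (|B| + |C|) / A) = A + (|B| + |C|) := by field_simp
    linarith
  have h5 : (A + (|B| + |C|)) * L ≤ A * L * L := mul_le_mul_of_nonneg_right h2 (by linarith)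
  have h6 : B * L ≤ |B| * L := mul_le_mul_of_nonneg_right (le_abs_self B) (by linarith)
  have h7 : C ≤ |C| * L := by
    calc C ≤ |C| := le_abs_self C
      _ ≤ |C| * L := le_mul_of_one_le_right (abs_nonneg C) h1
  have h8 : 0 < A * L := by positivity
  nlinarith

theorem Asy_log_gt (N : ℕ) (hN : 1 ≤ N) : Real.logb 2 N < (Nat.log 2 N : ℝ) + 1 := by
  have h1 : N < 2 ^ (Nat.log 2 N + 1) := Nat.lt_pow_succ_log_self (by norm_num) N
  have hN0 : (0 : ℝ) < N := by exact_mod_cast hN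
  rw [Real.logb_lt_iff_lt_rpow (by norm_num) hN0]
  have h2 : (N : ℝ) < 2 ^ (Nat.log 2 N + 1) := by exact_mod_cast h1
  calc (N : ℝ) < 2 ^ (Nat.log 2 N + 1) := h2
    _ = (2 : ℝ) ^ ((Nat.log 2 N : ℝ) + 1) := by
      rw [← Real.rpow_natCast]
      push_cast
      rfl

/-- TASK. Let `L = Real.logb 2 N`, `q = ⌊c L⌋₊ + 1`, `T = Nat.log 2 N - k`. Take logarithms and divide
by `L ^ 2`. One has `q / L → c` (`tendsto_nat_floor_mul_div_atTop`), `T / L → 1`
(`Nat.log 2 N = ⌊L⌋₊`), `log (q + 1) / L ^ 2 → 0`. The logarithm of the left side divided by `L ^ 2`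
tends to `c`, that of the right side to `(logb 2 α - logb 2 β) / 2 + c ^ 2 / 2 * logb 2 β`. (Note
`q.choose 2 = q (q - 1) / 2`.) -/
theorem asy {α β c : ℝ} (hβ : 1 < β) (hβα : β ≤ α) (hc : 1 < c)
    (h : 2 * c < c ^ 2 * Real.logb 2 β + (Real.logb 2 α - Real.logb 2 β)) (k : ℕ) :
    ∀ᶠ N : ℕ in atTop,
      4 * (((⌊c * Real.logb 2 N⌋₊ + 1 : ℕ) : ℝ) + 1) * (N : ℝ) ^ (⌊c * Real.logb 2 N⌋₊ + 1) <
        (α / β) ^ ((Nat.log 2 N - k + 1) * (Nat.log 2 N - k + 2) / 2) *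
          β ^ ((⌊c * Real.logb 2 N⌋₊ + 1).choose 2 - 2) := by
  have hβ0 : 0 < β := by linarith
  have hα0 : 0 < α := by linarith
  set a : ℝ := Real.logb 2 α - Real.logb 2 β with ha
  set b : ℝ := Real.logb 2 β with hb
  have ha0 : 0 ≤ a := by
    have : Real.logb 2 β ≤ Real.logb 2 α := Real.logb_le_logb_of_le (by norm_num) hβ0 hβα
    linarith
  have hb0 : 0 < b := Real.logb_pos (by norm_num) hβ
  have hA : 0 < a / 2 + c ^ 2 * b / 2 - c := by linarith
  filter_upwards [Asy_quad hA (k * a + c * b / 2 + 1 + c) (a / 2 + 2 * b + 4),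
    Asy_tendsto.eventually (eventually_ge_atTop (1 : ℝ)),
    Asy_tendsto.eventually (eventually_ge_atTop (k : ℝ)), eventually_ge_atTop 1]
    with N hq hL1 hLk hN1
  have hN0 : (0 : ℝ) < N := by exact_mod_cast hN1
  set L : ℝ := Real.logb 2 N with hL
  set q : ℕ := ⌊c * L⌋₊ + 1 with hqdef
  set T : ℕ := Nat.log 2 N - k with hT
  have hcL : 0 ≤ c * L := by positivity
  have hq1 : c * L < q := by
    rw [hqdef, Nat.cast_add, Nat.cast_one]
    exact Nat.lt_floor_add_one _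
  have hq2 : (q : ℝ) ≤ c * L + 1 := by
    rw [hqdef, Nat.cast_add, Nat.cast_one]
    have := Nat.floor_le hcL
    linarith
  have hT1 : L - k ≤ (T : ℝ) + 1 := by
    have h1 := Asy_log_gt N hN1
    have h2 : (Nat.log 2 N : ℝ) ≤ (T : ℝ) + k := by
      have : Nat.log 2 N ≤ T + k := by omega
      exact_mod_cast this
    linarith
  -- the exponents
  have hE1 : (((T + 1) * (T + 2) / 2 : ℕ) : ℝ) ≥ ((L - k) ^ 2 - 1) / 2 := by
    have h1 : (T + 1) * (T + 2) ≤ 2 * ((T + 1) * (T + 2) / 2) + 1 := by omega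
    have h2 : ((T : ℝ) + 1) * ((T : ℝ) + 2) ≤ 2 * (((T + 1) * (T + 2) / 2 : ℕ) : ℝ) + 1 := by
      exact_mod_cast h1
    have h3 : 0 ≤ L - k := by linarith
    have h4 : (L - k) ^ 2 ≤ ((T : ℝ) + 1) * ((T : ℝ) + 2) := by nlinarith
    linarith
  have hE2 : ((q.choose 2 - 2 : ℕ) : ℝ) ≥ c * L * (c * L - 1) / 2 - 2 := by
    have h1 : q.choose 2 ≤ (q.choose 2 - 2) + 2 := by omega
    have h2 : ((q.choose 2 : ℕ) : ℝ) ≤ ((q.choose 2 - 2 : ℕ) : ℝ) + 2 := by exact_mod_cast h1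
    have h3 : ((q.choose 2 : ℕ) : ℝ) = (q : ℝ) * (q - 1) / 2 := Nat.cast_choose_two ℝ q
    have h5 : 1 ≤ c * L := by nlinarith
    have h6 : 0 ≤ ((q : ℝ) - c * L) * (q + c * L - 1) :=
      mul_nonneg (by linarith) (by linarith)
    have h4 : c * L * (c * L - 1) ≤ (q : ℝ) * (q - 1) := by nlinarith
    rw [h3] at h2
    linarith
  -- logarithms
  have hlogq : Real.logb 2 ((q : ℝ) + 1) ≤ q + 1 := by
    have h1 : q + 1 < 2 ^ (q + 1) := Nat.lt_two_pow_self
    have h2 : (q : ℝ) + 1 ≤ 2 ^ (q + 1) := by exact_mod_cast h1.le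
    calc Real.logb 2 ((q : ℝ) + 1) ≤ Real.logb 2 (2 ^ (q + 1)) :=
          Real.logb_le_logb_of_le (by norm_num) (by positivity) h2
      _ = q + 1 := by
        rw [Real.logb_pow, Real.logb_self_eq_one (by norm_num)]
        push_cast
        ring
  have hl : Real.logb 2 (4 * ((q : ℝ) + 1) * (N : ℝ) ^ q) =
      2 + Real.logb 2 ((q : ℝ) + 1) + q * L := by
    rw [Real.logb_mul (by positivity) (by positivity), Real.logb_mul (by norm_num) (by positivity),
      Real.logb_pow]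
    have h4 : Real.logb 2 (4 : ℝ) = 2 := by
      have : (4 : ℝ) = 2 ^ (2 : ℕ) := by norm_num
      rw [this, Real.logb_pow, Real.logb_self_eq_one (by norm_num)]
      norm_num
    rw [h4]
  have hr : Real.logb 2 ((α / β) ^ ((T + 1) * (T + 2) / 2) * β ^ (q.choose 2 - 2)) =
      (((T + 1) * (T + 2) / 2 : ℕ) : ℝ) * a + ((q.choose 2 - 2 : ℕ) : ℝ) * b := by
    rw [Real.logb_mul (by positivity) (by positivity), Real.logb_pow, Real.logb_pow,
      Real.logb_div hα0.ne' hβ0.ne']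
  rw [← Real.logb_lt_logb_iff (b := 2) (by norm_num) (by positivity) (by positivity), hl, hr]
  have hR1 : ((L - k) ^ 2 - 1) / 2 * a ≤ (((T + 1) * (T + 2) / 2 : ℕ) : ℝ) * a :=
    mul_le_mul_of_nonneg_right hE1 ha0
  have hR2 : (c * L * (c * L - 1) / 2 - 2) * b ≤ ((q.choose 2 - 2 : ℕ) : ℝ) * b :=
    mul_le_mul_of_nonneg_right hE2 hb0.le
  have hqL : (q : ℝ) * L ≤ (c * L + 1) * L := mul_le_mul_of_nonneg_right hq2 (by linarith)
  have hk2 : 0 ≤ (k : ℝ) ^ 2 * a := by positivity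
  have hexp : ((L - k) ^ 2 - 1) / 2 * a + (c * L * (c * L - 1) / 2 - 2) * b -
      (2 + (c * L + 2) + (c * L + 1) * L) =
      ((a / 2 + c ^ 2 * b / 2 - c) * L ^ 2 - (k * a + c * b / 2 + 1 + c) * L -
        (a / 2 + 2 * b + 4)) + (k : ℝ) ^ 2 * a / 2 := by ring
  linarith

/-- TASK. `Nat.log 2 N ≤ logb 2 N`, `c > 1` and `logb 2 N → ∞`. -/
theorem asy_T {c : ℝ} (hc : 1 < c) (k : ℕ) :
    ∀ᶠ N : ℕ in atTop, Nat.log 2 N - k + 4 ≤ ⌊c * Real.logb 2 N⌋₊ + 1 := by
  have hc0 : 0 < c - 1 := by linarith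
  filter_upwards [Asy_tendsto.eventually (eventually_ge_atTop (3 / (c - 1)))] with N hN
  have h1 : (Nat.log 2 N : ℝ) ≤ Real.logb 2 N := by
    have := Real.natLog_le_logb N 2
    exact_mod_cast this
  have h2 : 3 ≤ (c - 1) * Real.logb 2 N := by
    rw [div_le_iff₀ hc0] at hN
    linarith
  have h3 : Nat.log 2 N + 3 ≤ ⌊c * Real.logb 2 N⌋₊ := by
    apply Nat.le_floor
    push_cast
    linarith
  omega

/-- TASK. `N * (2 - α) ≥ N / 2 ^ j` for some `j`; take `k = j + 3` and `N ≥ 2 ^ k`;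
`2 ^ Nat.log 2 N ≤ N`. -/
theorem exists_k {α : ℝ} (hα : α < 2) :
    ∃ k : ℕ, ∀ᶠ N : ℕ in atTop, (2 : ℝ) ^ (Nat.log 2 N - k + 3) ≤ N * (2 - α) := by
  have hε : 0 < 2 - α := by linarith
  obtain ⟨j, hj⟩ := exists_pow_lt_of_lt_one hε (show (1 / 2 : ℝ) < 1 by norm_num)
  refine ⟨j + 3, ?_⟩
  filter_upwards [eventually_ge_atTop (2 ^ (j + 3))] with N hN
  have h1 : j + 3 ≤ Nat.log 2 N := by
    have := Nat.log_mono_right (b := 2) hN
    rwa [Nat.log_pow (by norm_num)] at this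
  have h2 : Nat.log 2 N - (j + 3) + 3 = Nat.log 2 N - j := by omega
  rw [h2]
  have hN0 : N ≠ 0 := by
    have : 0 < 2 ^ (j + 3) := by positivity
    omega
  have h3 : 2 ^ Nat.log 2 N ≤ N := Nat.pow_log_le_self 2 hN0
  have h4 : (2 : ℝ) ^ Nat.log 2 N ≤ N := by exact_mod_cast h3
  have h5 : (2 : ℝ) ^ Nat.log 2 N = 2 ^ (Nat.log 2 N - j) * 2 ^ j := by
    rw [← pow_add]
    congr 1
    omega
  have h6 : (2 : ℝ) ^ (Nat.log 2 N - j) = 2 ^ Nat.log 2 N * (1 / 2) ^ j := by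
    rw [h5, mul_assoc, ← mul_pow]
    norm_num
  rw [h6]
  calc (2 : ℝ) ^ Nat.log 2 N * (1 / 2) ^ j ≤ N * (1 / 2) ^ j :=
        mul_le_mul_of_nonneg_right h4 (by positivity)
    _ ≤ N * (2 - α) := mul_le_mul_of_nonneg_left hj.le (Nat.cast_nonneg _)

end C0ce
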