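import Pool.Agent.W_c0ce05_h38.Pot

/-! # The pair term -/

set_option autoImplicit false

namespace C0ce

open scoped Classical

variable {N q : ℕ}

/-- TASK. The map `B ↦ B.erase v` is injective on `X` (all members contain `v`), maps `X` to
`(Fam N q).filter (inB e)` (`erase_mem_Fam`, `inB_erase`), and
`cf q B * f B ≤ cf q B * (K * f (B.erase v)) = K / N * (cf q (B.erase v) * f (B.erase v))` by
`cf_erase`. Use `Finset.sum_image` and `Finset.sum_le_sum_of_subset_of_nonneg`. -/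
theorem charge (hN : 1 ≤ N) {f : Finset (Fin N) → ℝ} (hf : ∀ B, 0 ≤ f B) {K : ℝ} (hK : 0 ≤ K)
    (e : Sym2 (Fin N)) (v : Fin N) (hv : v ∉ e) (X : Finset (Finset (Fin N)))
    (hX : ∀ B ∈ X, B ∈ Fam N q ∧ v ∈ B ∧ inB e B ∧ f B ≤ K * f (B.erase v)) :
    ∑ B ∈ X, cf q B * f B ≤ K / N * P q f e := by
  have hN0 : (0 : ℝ) < N := by exact_mod_cast hN
  have h1 : ∀ B ∈ X, cf q B * f B ≤ K / N * (cf q (B.erase v) * f (B.erase v)) := by
    intro B hB
    obtain ⟨h2, h3, -, h5⟩ := hX B hB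
    rw [cf_erase h2 h3]
    have h6 : K / N * ((N : ℝ) * cf q B * f (B.erase v)) = cf q B * (K * f (B.erase v)) := by
      field_simp
    rw [h6]
    exact mul_le_mul_of_nonneg_left h5 (cf_pos hN B).le
  have hinj : Set.InjOn (fun B : Finset (Fin N) => B.erase v) (X : Set (Finset (Fin N))) := by
    intro B hB B' hB' h
    have h2 := (hX B (Finset.mem_coe.1 hB)).2.1
    have h3 := (hX B' (Finset.mem_coe.1 hB')).2.1
    have h4 : insert v (B.erase v) = insert v (B'.erase v) := congrArg (insert v) h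
    rwa [Finset.insert_erase h2, Finset.insert_erase h3] at h4
  calc ∑ B ∈ X, cf q B * f B
      ≤ ∑ B ∈ X, K / N * (cf q (B.erase v) * f (B.erase v)) := Finset.sum_le_sum h1
    _ = K / N * ∑ B ∈ X, cf q (B.erase v) * f (B.erase v) := by rw [Finset.mul_sum]
    _ = K / N * ∑ B ∈ X.image (fun B => B.erase v), cf q B * f B := by
        rw [Finset.sum_image hinj]
    _ ≤ K / N * P q f e := by
        refine mul_le_mul_of_nonneg_left ?_ (by positivity)
        refine Finset.sum_le_sum_of_subset_of_nonneg ?_ fun B _ _ =>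
          mul_nonneg (cf_pos hN B).le (hf B)
        intro B' hB'
        obtain ⟨B, hB, rfl⟩ := Finset.mem_image.1 hB'
        obtain ⟨h2, -, h4, -⟩ := hX B hB
        exact Finset.mem_filter.2 ⟨erase_mem_Fam h2, inB_erase.2 ⟨h4, hv⟩⟩

theorem Charge_union {g : Finset (Fin N) → ℝ} (hg : ∀ B, 0 ≤ g B)
    (S S' : Finset (Finset (Fin N))) : ∑ B ∈ S ∪ S', g B ≤ ∑ B ∈ S, g B + ∑ B ∈ S', g B := by
  rw [← Finset.sum_union_inter]
  have : 0 ≤ ∑ B ∈ S ∩ S', g B := Finset.sum_nonneg fun B _ => hg B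
  linarith

theorem Charge_one (hN : 1 ≤ N) {f : Finset (Fin N) → ℝ} (hf : ∀ B, 0 ≤ f B) {K : ℝ} (hK : 0 ≤ K)
    {T : ℕ} {π : ℕ → Sym2 (Fin N)} {r : ℕ}
    (hinv : ∀ B v, v ∈ B → dg π r v B ≤ T → f B ≤ K * f (B.erase v)) (e e' : Sym2 (Fin N))
    (v : Fin N) :
    ∑ B ∈ (Fam N q).filter (fun B => inB e B ∧ inB e' B ∧ (v ∈ e ∧ v ∉ e') ∧ dg π r v B ≤ T),
      cf q B * f B ≤ K / N * P q f e' := by
  by_cases hv : v ∈ e ∧ v ∉ e'
  · refine charge hN hf hK e' v hv.2 _ fun B hB => ?_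
    obtain ⟨h1, h2, h3, -, h5⟩ := Finset.mem_filter.1 hB
    exact ⟨h1, h2 v hv.1, h3, hinv B v (h2 v hv.1) h5⟩
  · rw [Finset.sum_eq_zero]
    · exact mul_nonneg (by positivity) (P_nonneg hf e')
    · intro B hB
      exact absurd (Finset.mem_filter.1 hB).2.2.2.1 hv

/-- TASK. Write `e1 = s(a, b)`, `e2 = s(c, d)` (`Sym2.ind`). The index set is contained in the union
of the four sets `X_v`, `v = a, b, c, d`, where `X_v` consists of the `B` in `Fam N q` containing
both edges such that `v` lies in exactly one of the edges and `dg π r v B ≤ T`. Estimate the sum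
over `X_a` and `X_b` (`v ∈ e1`, `v ∉ e2`) by `charge` with `e = e2`, the other two with `e = e1`
(if `v` lies in both edges, `X_v` is empty). -/
theorem pair_bound (hN : 1 ≤ N) {f : Finset (Fin N) → ℝ} (hf : ∀ B, 0 ≤ f B) {K : ℝ} (hK : 0 ≤ K)
    {T : ℕ} {π : ℕ → Sym2 (Fin N)} {r : ℕ}
    (hinv : ∀ B v, v ∈ B → dg π r v B ≤ T → f B ≤ K * f (B.erase v)) (e1 e2 : Sym2 (Fin N)) :
    ∑ B ∈ (Fam N q).filter (fun B => inB e1 B ∧ inB e2 B ∧ cheap T π r e1 e2 B), cf q B * f B ≤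
      2 * (K / N) * (P q f e1 + P q f e2) := by
  have hg : ∀ B : Finset (Fin N), 0 ≤ cf q B * f B := fun B => mul_nonneg (cf_pos hN B).le (hf B)
  induction e1 using Sym2.ind with
  | _ a b =>
  induction e2 using Sym2.ind with
  | _ c d =>
  let X : Sym2 (Fin N) → Sym2 (Fin N) → Fin N → Finset (Finset (Fin N)) := fun e e' v =>
    (Fam N q).filter (fun B => inB e B ∧ inB e' B ∧ (v ∈ e ∧ v ∉ e') ∧ dg π r v B ≤ T)
  have hX : ∀ e e' v, ∑ B ∈ X e e' v, cf q B * f B ≤ K / N * P q f e' := fun e e' v =>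
    Charge_one hN hf hK hinv e e' v
  have hsub : (Fam N q).filter (fun B => inB s(a, b) B ∧ inB s(c, d) B ∧
      cheap T π r s(a, b) s(c, d) B) ⊆
      (X s(a, b) s(c, d) a ∪ X s(a, b) s(c, d) b) ∪ (X s(c, d) s(a, b) c ∪ X s(c, d) s(a, b) d) := by
    intro B hB
    obtain ⟨h1, h2, h3, v, hv, h4⟩ := Finset.mem_filter.1 hB
    rcases hv with hv | hv
    · refine Finset.mem_union_left _ ?_
      rcases Sym2.mem_iff.1 hv.1 with rfl | rfl
      · exact Finset.mem_union_left _ (Finset.mem_filter.2 ⟨h1, h2, h3, hv, h4⟩)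
      · exact Finset.mem_union_right _ (Finset.mem_filter.2 ⟨h1, h2, h3, hv, h4⟩)
    · refine Finset.mem_union_right _ ?_
      rcases Sym2.mem_iff.1 hv.1 with rfl | rfl
      · exact Finset.mem_union_left _ (Finset.mem_filter.2 ⟨h1, h3, h2, hv, h4⟩)
      · exact Finset.mem_union_right _ (Finset.mem_filter.2 ⟨h1, h3, h2, hv, h4⟩)
  have h5 := Finset.sum_le_sum_of_subset_of_nonneg hsub fun B _ _ => hg B
  have h6 := Charge_union hg (X s(a, b) s(c, d) a ∪ X s(a, b) s(c, d) b)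
    (X s(c, d) s(a, b) c ∪ X s(c, d) s(a, b) d)
  have h7 := Charge_union hg (X s(a, b) s(c, d) a) (X s(a, b) s(c, d) b)
  have h8 := Charge_union hg (X s(c, d) s(a, b) c) (X s(c, d) s(a, b) d)
  have h9 := hX s(a, b) s(c, d) a
  have h10 := hX s(a, b) s(c, d) b
  have h11 := hX s(c, d) s(a, b) c
  have h12 := hX s(c, d) s(a, b) d
  linarith

end C0ce
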