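import Pool.Agent.W_c0ce05_h38.Defs

/-! # Counting the edges between vertices of small degree -/

set_option autoImplicit false

namespace C0ce

open scoped Classical

variable {N : ℕ}

/-- TASK. For `v ∈ A` let `τ v` be the least `r` with `T + 1 ≤ dg π r v A` (`Nat.find`, `≤ R`). For
nonempty `S ⊆ A` choose `v ∈ S` with `τ v` minimal (`Finset.exists_min_image`). The `≥ T + 1`
indices `i < 4 τ v` counted by `dg π (τ v) v A` give edges `π i = s(v, u)` with `u ∈ A`,
`u ≠ v` pairwise different (`hinj`, `hdiag`). At most `(A \ S).card` of them have `u ∉ S`. Those with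
`u ∈ S` are in `Hset`: `i / 4 < τ v ≤ τ u`, so `dg π (i/4) v A ≤ T` and `dg π (i/4) u A ≤ T`. -/
theorem exists_vertex (T : ℕ) (π : ℕ → Sym2 (Fin N)) (R : ℕ) (A : Finset (Fin N))
    (hdiag : ∀ i < 4 * R, ¬ Sym2.IsDiag (π i))
    (hinj : ∀ i < 4 * R, ∀ j < 4 * R, π i = π j → i = j)
    (hd : ∀ v ∈ A, T + 1 ≤ dg π R v A) (S : Finset (Fin N)) (hS : S ⊆ A) (hne : S.Nonempty) :
    ∃ v ∈ S, T + 1 ≤ (A \ S).card +
      ((Hset T π R A).filter (fun i => v ∈ π i ∧ inB (π i) S)).card := by
  have hex : ∀ u ∈ A, ∃ r, T + 1 ≤ dg π r u A := fun u hu => ⟨R, hd u hu⟩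
  let τ : Fin N → ℕ := fun u => if h : ∃ r, T + 1 ≤ dg π r u A then Nat.find h else 0
  have hτ1 : ∀ u ∈ A, T + 1 ≤ dg π (τ u) u A := by
    intro u hu
    have h := hex u hu
    have : τ u = Nat.find h := by simp only [τ]; rw [dif_pos h]
    rw [this]
    exact Nat.find_spec h
  have hτ2 : ∀ u ∈ A, ∀ r, r < τ u → dg π r u A ≤ T := by
    intro u hu r hr
    have h := hex u hu
    have h2 : τ u = Nat.find h := by simp only [τ]; rw [dif_pos h]
    rw [h2] at hr
    have := Nat.find_min h hr
    omega
  have hτ3 : ∀ u ∈ A, τ u ≤ R := by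
    intro u hu
    by_contra hc
    have h1 := hτ2 u hu R (by omega)
    have h2 := hd u hu
    omega
  obtain ⟨v, hvS, hmin⟩ := Finset.exists_min_image S τ hne
  have hvA : v ∈ A := hS hvS
  refine ⟨v, hvS, ?_⟩
  set I : Finset ℕ := (Finset.range (4 * τ v)).filter
    (fun i => i % 4 < 2 ∧ v ∈ π i ∧ inB (π i) A) with hI
  have hIcard : T + 1 ≤ I.card := hτ1 v hvA
  have hsplit : (I.filter (fun i => inB (π i) S)).card +
      (I.filter (fun i => ¬ inB (π i) S)).card = I.card :=
    Finset.card_filter_add_card_filter_not _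
  have hr3 := hτ3 v hvA
  have h1 : (I.filter (fun i => inB (π i) S)).card ≤
      ((Hset T π R A).filter (fun i => v ∈ π i ∧ inB (π i) S)).card := by
    refine Finset.card_le_card fun i hi => ?_
    obtain ⟨hiI, hiS⟩ := Finset.mem_filter.1 hi
    obtain ⟨hir, hi4, hiv, hiA⟩ := Finset.mem_filter.1 hiI
    rw [Finset.mem_range] at hir
    refine Finset.mem_filter.2 ⟨Finset.mem_filter.2 ⟨Finset.mem_range.2 (by omega), hi4, hiA, ?_⟩,
      hiv, hiS⟩
    intro w hw
    have hwS : w ∈ S := hiS w hw
    refine hτ2 w (hS hwS) (i / 4) ?_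
    have h2 : i / 4 < τ v := by omega
    exact lt_of_lt_of_le h2 (hmin w hwS)
  have h2 : (I.filter (fun i => ¬ inB (π i) S)).card ≤ (A \ S).card := by
    refine Finset.card_le_card_of_injOn
      (fun i => if h : v ∈ π i then Sym2.Mem.other h else v) ?_ ?_
    · intro i hi
      obtain ⟨hiI, hiS⟩ := Finset.mem_filter.1 (Finset.mem_coe.1 hi)
      obtain ⟨hir, hi4, hiv, hiA⟩ := Finset.mem_filter.1 hiI
      simp only [Finset.mem_coe]
      rw [dif_pos hiv]
      have hsp := Sym2.other_spec hiv
      refine Finset.mem_sdiff.2 ⟨hiA _ (Sym2.other_mem hiv), fun hmem => hiS ?_⟩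
      intro w hw
      rw [← hsp, Sym2.mem_iff] at hw
      rcases hw with rfl | rfl
      · exact hvS
      · exact hmem
    · intro i hi j hj hij
      obtain ⟨hiI, _⟩ := Finset.mem_filter.1 (Finset.mem_coe.1 hi)
      obtain ⟨hir, _, hiv, _⟩ := Finset.mem_filter.1 hiI
      obtain ⟨hjI, _⟩ := Finset.mem_filter.1 (Finset.mem_coe.1 hj)
      obtain ⟨hjr, _, hjv, _⟩ := Finset.mem_filter.1 hjI
      simp only [] at hij
      rw [dif_pos hiv, dif_pos hjv] at hij
      rw [Finset.mem_range] at hir hjr
      refine hinj i (by omega) j (by omega) ?_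
      rw [← Sym2.other_spec hiv, ← Sym2.other_spec hjv, hij]
  omega

/-- TASK. Show by induction on `j ≤ T + 1`: if `S ⊆ A` and `(A \ S).card + j = T + 1`, then
`j * (j + 1) ≤ 2 * ((Hset T π R A).filter (fun i => inB (π i) S)).card`. Step: `S` is nonempty because
`T + 1 ≤ A.card`; take `v` from `exists_vertex` and split the filter for `S` into the indices with
`v ∈ π i` (at least `T + 1 - (A \ S).card`) and those with `v ∉ π i`, which are the indices for
`S.erase v` (`inB_erase`). Finally `S = A`, `j = T + 1`. -/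
theorem cnt (T : ℕ) (π : ℕ → Sym2 (Fin N)) (R : ℕ) (A : Finset (Fin N))
    (hdiag : ∀ i < 4 * R, ¬ Sym2.IsDiag (π i))
    (hinj : ∀ i < 4 * R, ∀ j < 4 * R, π i = π j → i = j)
    (hd : ∀ v ∈ A, T + 1 ≤ dg π R v A) (hA : T + 1 ≤ A.card) :
    (T + 1) * (T + 2) ≤ 2 * (Hset T π R A).card := by
  have key : ∀ j : ℕ, ∀ S : Finset (Fin N), S ⊆ A → (A \ S).card + j = T + 1 →
      j * (j + 1) ≤ 2 * ((Hset T π R A).filter (fun i => inB (π i) S)).card := by
    intro j
    induction j with
    | zero => intro S _ _; simp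
    | succ j ih =>
      intro S hS hc
      have hne : S.Nonempty := by
        rw [Finset.nonempty_iff_ne_empty]
        rintro rfl
        rw [Finset.sdiff_empty] at hc
        omega
      obtain ⟨v, hvS, hv⟩ := exists_vertex T π R A hdiag hinj hd S hS hne
      have hSe : S.erase v ⊆ A := (Finset.erase_subset v S).trans hS
      have hc2 : (A \ S.erase v).card = (A \ S).card + 1 := by
        have h1 := Finset.card_sdiff_add_card_eq_card hS
        have h2 := Finset.card_sdiff_add_card_eq_card hSe
        have h3 := Finset.card_erase_of_mem hvS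
        have h4 : 1 ≤ S.card := Finset.card_pos.2 ⟨v, hvS⟩
        omega
      have hih := ih (S.erase v) hSe (by omega)
      have hsplit : (((Hset T π R A).filter (fun i => inB (π i) S)).filter
            (fun i => v ∈ π i)).card +
          (((Hset T π R A).filter (fun i => inB (π i) S)).filter (fun i => ¬ v ∈ π i)).card =
          ((Hset T π R A).filter (fun i => inB (π i) S)).card :=
        Finset.card_filter_add_card_filter_not _
      have e1 : ((Hset T π R A).filter (fun i => inB (π i) S)).filter (fun i => v ∈ π i) =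
          (Hset T π R A).filter (fun i => v ∈ π i ∧ inB (π i) S) := by
        rw [Finset.filter_filter]
        refine Finset.filter_congr fun i _ => ?_
        exact and_comm
      have e2 : ((Hset T π R A).filter (fun i => inB (π i) S)).filter (fun i => ¬ v ∈ π i) =
          (Hset T π R A).filter (fun i => inB (π i) (S.erase v)) := by
        rw [Finset.filter_filter]
        refine Finset.filter_congr fun i _ => ?_
        exact inB_erase.symm
      rw [e1, e2] at hsplit
      have h5 : j + 1 ≤ ((Hset T π R A).filter (fun i => v ∈ π i ∧ inB (π i) S)).card := by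
        omega
      nlinarith
  have h := key (T + 1) A (Finset.Subset.refl A) (by simp)
  have h6 : ((Hset T π R A).filter (fun i => inB (π i) A)).card ≤ (Hset T π R A).card :=
    Finset.card_filter_le _ _
  have h7 : (T + 1) * (T + 2) = (T + 1) * (T + 1 + 1) := by ring
  omega

end C0ce
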