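import Pool.Agent.W_c0ce05_h38.Defs

/-! # Consequences of a complete subgraph of the first player -/

set_option autoImplicit false

namespace C0ce

open scoped Classical

variable {N : ℕ}

theorem Comp_idx {m i : ℕ} (hi : i < m) (h4 : i % 4 < 2) :
    i < 4 * (m / 4) ∨ i = 4 * (m / 4) ∨ i = 4 * (m / 4) + 1 := by
  omega

/-- TASK. The edges inside `A` are the image of `A.offDiag` under `Sym2.mk`; there are
`A.card.choose 2` of them (`Sym2.card_image_offDiag`). Each is `π i` for some `i < m` with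
`i % 4 < 2`; the indices `i` with `4 * (m / 4) ≤ i < m` and `i % 4 < 2` are at most two
(`4 (m/4)` and `4 (m/4) + 1`), the others belong to `Kset`. -/
theorem comp_K (π : ℕ → Sym2 (Fin N)) (m : ℕ) (A : Finset (Fin N))
    (hA : ∀ x ∈ A, ∀ y ∈ A, x ≠ y → ∃ i < m, i % 4 < 2 ∧ π i = s(x, y)) :
    A.card.choose 2 ≤ (Kset π (m / 4) A).card + 2 := by
  rw [← Sym2.card_image_offDiag A]
  have h1 : A.offDiag.image Sym2.mk.uncurry ⊆
      (Kset π (m / 4) A ∪ {4 * (m / 4), 4 * (m / 4) + 1}).image π := by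
    intro e he
    obtain ⟨⟨x, y⟩, hxy, rfl⟩ := Finset.mem_image.1 he
    obtain ⟨hx, hy, hne⟩ := Finset.mem_offDiag.1 hxy
    obtain ⟨i, him, hi4, hi⟩ := hA x hx y hy hne
    refine Finset.mem_image.2 ⟨i, ?_, hi⟩
    rcases Comp_idx him hi4 with h | h | h
    · refine Finset.mem_union_left _ (Finset.mem_filter.2 ⟨Finset.mem_range.2 h, hi4, ?_⟩)
      rw [hi]
      intro v hv
      rcases Sym2.mem_iff.1 hv with rfl | rfl
      · exact hx
      · exact hy
    · exact Finset.mem_union_right _ (by simp [h])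
    · exact Finset.mem_union_right _ (by simp [h])
  refine (Finset.card_le_card h1).trans (Finset.card_image_le.trans ?_)
  refine (Finset.card_union_le _ _).trans (Nat.add_le_add_left ?_ _)
  exact Finset.card_le_two

/-- TASK. Similarly: for each `u ∈ A.erase v` there is an index with `π i = s(v, u)`, different
for different `u`. -/
theorem comp_dg (π : ℕ → Sym2 (Fin N)) (m : ℕ) (A : Finset (Fin N))
    (hA : ∀ x ∈ A, ∀ y ∈ A, x ≠ y → ∃ i < m, i % 4 < 2 ∧ π i = s(x, y)) (v : Fin N)
    (hv : v ∈ A) : A.card ≤ dg π (m / 4) v A + 3 := by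
  have h0 : (A.erase v).card + 1 = A.card := Finset.card_erase_add_one hv
  have hinj : Function.Injective (fun u : Fin N => s(v, u)) := by
    intro a b hab
    exact Sym2.congr_right.1 hab
  have h2 : ((A.erase v).image (fun u : Fin N => s(v, u))).card = (A.erase v).card :=
    Finset.card_image_of_injective _ hinj
  have h1 : (A.erase v).image (fun u : Fin N => s(v, u)) ⊆
      (((Finset.range (4 * (m / 4))).filter (fun i => i % 4 < 2 ∧ v ∈ π i ∧ inB (π i) A)) ∪
        {4 * (m / 4), 4 * (m / 4) + 1}).image π := by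
    intro e he
    obtain ⟨u, hu, rfl⟩ := Finset.mem_image.1 he
    obtain ⟨hne, hu⟩ := Finset.mem_erase.1 hu
    obtain ⟨i, him, hi4, hi⟩ := hA v hv u hu (Ne.symm hne)
    refine Finset.mem_image.2 ⟨i, ?_, hi⟩
    rcases Comp_idx him hi4 with h | h | h
    · refine Finset.mem_union_left _ (Finset.mem_filter.2 ⟨Finset.mem_range.2 h, hi4, ?_, ?_⟩)
      · rw [hi]
        exact Sym2.mem_mk_left _ _
      · rw [hi]
        intro w hw
        rcases Sym2.mem_iff.1 hw with rfl | rfl
        · exact hv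
        · exact hu
    · exact Finset.mem_union_right _ (by simp [h])
    · exact Finset.mem_union_right _ (by simp [h])
  have h3 := (Finset.card_le_card h1).trans (Finset.card_image_le.trans
    (Finset.card_union_le _ _))
  have h4 : ({4 * (m / 4), 4 * (m / 4) + 1} : Finset ℕ).card ≤ 2 := Finset.card_le_two
  unfold dg
  omega

/-- TASK. If `2 ≤ i % 4` and `π i = s(x, y)` lies in `A` then also `π i = π j` for some `j` with
`j % 4 < 2`, contradiction to injectivity. -/
theorem comp_alive (π : ℕ → Sym2 (Fin N)) (m : ℕ) (A : Finset (Fin N))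
    (hdiag : ∀ i < m, ¬ Sym2.IsDiag (π i)) (hinj : ∀ i < m, ∀ j < m, π i = π j → i = j)
    (hA : ∀ x ∈ A, ∀ y ∈ A, x ≠ y → ∃ i < m, i % 4 < 2 ∧ π i = s(x, y)) :
    ∀ i < m, 2 ≤ i % 4 → ¬ inB (π i) A := by
  intro i him hi4 hin
  have hd := hdiag i him
  obtain ⟨x, y, hxy⟩ : ∃ x y, π i = s(x, y) := by
    induction h : π i using Sym2.ind with
    | _ x y => exact ⟨x, y, rfl⟩
  rw [hxy] at hd hin
  have hne : x ≠ y := by
    intro h
    exact hd (Sym2.mk_isDiag_iff.2 h)
  obtain ⟨j, hjm, hj4, hj⟩ := hA x (hin x (Sym2.mem_mk_left _ _)) y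
    (hin y (Sym2.mem_mk_right _ _)) hne
  have hij := hinj i him j hjm (hxy.trans hj.symm)
  subst hij
  omega

end C0ce
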