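import Pool.Agent.W_c0ce05_h38.Pot

/-! # The weights depend only on the previous moves -/

set_option autoImplicit false

namespace C0ce

open scoped Classical

variable {N q : ℕ}

theorem dg_congr {π π' : ℕ → Sym2 (Fin N)} {r : ℕ} (h : ∀ i < 4 * r, π i = π' i) (v : Fin N)
    (B : Finset (Fin N)) : dg π r v B = dg π' r v B := by
  unfold dg
  congr 1
  refine Finset.filter_congr fun i hi => ?_
  rw [h i (Finset.mem_range.1 hi)]

theorem fac_congr (α : ℝ) (T : ℕ) {π π' : ℕ → Sym2 (Fin N)} {r : ℕ}
    (h : ∀ i < 4 * r + 2, π i = π' i) (B : Finset (Fin N)) :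
    fac α T π r B = fac α T π' r B := by
  have h0 : ∀ i < 4 * r, π i = π' i := fun i hi => h i (by omega)
  have hl : cheap T π r (π' (4 * r)) (π' (4 * r + 1)) B =
      cheap T π' r (π' (4 * r)) (π' (4 * r + 1)) B := by
    unfold cheap
    simp only [dg_congr h0 _ B]
  unfold fac
  rw [h (4 * r) (by omega), h (4 * r + 1) (by omega), hl]

theorem wt_congr (α : ℝ) (T : ℕ) {π π' : ℕ → Sym2 (Fin N)} (r : ℕ)
    (h : ∀ i < 4 * r, π i = π' i) (B : Finset (Fin N)) : wt α T π r B = wt α T π' r B := by
  induction r generalizing B with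
  | zero => rfl
  | succ r ih =>
    have ih' : ∀ B, wt α T π r B = wt α T π' r B := fun B => ih (fun i hi => h i (by omega)) B
    show kill (kill (fun B => wt α T π r B * fac α T π r B) _) _ B =
      kill (kill (fun B => wt α T π' r B * fac α T π' r B) _) _ B
    have h1 : (fun B => wt α T π r B * fac α T π r B) =
        (fun B => wt α T π' r B * fac α T π' r B) := by
      funext B
      rw [ih' B, fac_congr α T (fun i hi => h i (by omega)) B]
    rw [h1, h (4 * r + 2) (by omega), h (4 * r + 3) (by omega)]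

theorem mw_congr (α : ℝ) (T : ℕ) {π π' : ℕ → Sym2 (Fin N)} (r : ℕ)
    (h : ∀ i < 4 * r + 2, π i = π' i) : mw α T π r = mw α T π' r := by
  funext B
  unfold mw
  rw [wt_congr α T r (fun i hi => h i (by omega)) B, fac_congr α T h B]

theorem facA_congr (α : ℝ) (T : ℕ) {π π' : ℕ → Sym2 (Fin N)} {r : ℕ}
    (h : ∀ i < 4 * r, π i = π' i) (e : Sym2 (Fin N)) (B : Finset (Fin N)) :
    facA α T π r e B = facA α T π' r e B := by
  have hl : low T π r e B = low T π' r e B := by
    unfold low
    simp only [dg_congr h _ B]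
  unfold facA
  rw [hl]

theorem wtA_congr (α : ℝ) (T : ℕ) {π π' : ℕ → Sym2 (Fin N)} (r : ℕ)
    (h : ∀ i < 4 * r, π i = π' i) : wtA α T π r = wtA α T π' r := by
  induction r with
  | zero => rfl
  | succ r ih =>
    have ih' : wtA α T π r = wtA α T π' r := ih (fun i hi => h i (by omega))
    have h1 : (fun B => wtA α T π r B * facA α T π r (π (4 * r)) B *
        facA α T π r (π (4 * r + 1)) B) =
        (fun B => wtA α T π' r B * facA α T π' r (π' (4 * r)) B *
        facA α T π' r (π' (4 * r + 1)) B) := by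
      funext B
      rw [ih', h (4 * r) (by omega), h (4 * r + 1) (by omega),
        facA_congr α T (fun i hi => h i (by omega)), facA_congr α T (fun i hi => h i (by omega))]
    funext B
    show kill (kill (fun B => wtA α T π r B * facA α T π r (π (4 * r)) B *
        facA α T π r (π (4 * r + 1)) B) _) _ B = kill (kill (fun B => wtA α T π' r B *
        facA α T π' r (π' (4 * r)) B * facA α T π' r (π' (4 * r + 1)) B) _) _ B
    rw [h1, h (4 * r + 2) (by omega), h (4 * r + 3) (by omega)]

theorem Q_congr (α : ℝ) (T : ℕ) {π π' : ℕ → Sym2 (Fin N)} (r : ℕ)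
    (h : ∀ i < 4 * r, π i = π' i) (f : Finset (Fin N) → ℝ) (e : Sym2 (Fin N)) :
    Q q α T π r f e = Q q α T π' r f e := by
  unfold Q
  refine Finset.sum_congr rfl fun B _ => ?_
  rw [facA_congr α T h]

end C0ce
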