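import Mathlib

/-!
# MP_c0ce05_co: upper bounds for the (2:2) clique achievement and avoidance numbers

Definitions: moves `π : ℕ → Sym2 (Fin N)`, the moves `i` with `i % 4 < 2` are those of the first
player (Maker resp. Avoider), the others those of the second player. Round `r` consists of the
moves `4 r, 4 r + 1, 4 r + 2, 4 r + 3`.
-/

set_option autoImplicit false

namespace C0ce

open scoped Classical

variable {N : ℕ}

/-- the edge `e` lies inside the vertex set `B` -/
def inB (e : Sym2 (Fin N)) (B : Finset (Fin N)) : Prop := ∀ v ∈ e, v ∈ B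

/-- number of moves of the first player in the first `r` rounds which are edges at `v` inside
`B` -/
noncomputable def dg (π : ℕ → Sym2 (Fin N)) (r : ℕ) (v : Fin N) (B : Finset (Fin N)) : ℕ :=
  ((Finset.range (4 * r)).filter (fun i => i % 4 < 2 ∧ v ∈ π i ∧ inB (π i) B)).card

/-- all vertices of `e` have degree at most `T` in `B` after `r` rounds -/
def low (T : ℕ) (π : ℕ → Sym2 (Fin N)) (r : ℕ) (e : Sym2 (Fin N)) (B : Finset (Fin N)) : Prop :=
  ∀ v ∈ e, dg π r v B ≤ T

/-- some vertex in exactly one of the edges `e`, `f` has degree at most `T` in `B` after `r`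
rounds -/
def cheap (T : ℕ) (π : ℕ → Sym2 (Fin N)) (r : ℕ) (e f : Sym2 (Fin N)) (B : Finset (Fin N)) :
    Prop :=
  ∃ v, (v ∈ e ∧ v ∉ f ∨ v ∈ f ∧ v ∉ e) ∧ dg π r v B ≤ T

/-- the family of the vertex sets with at most `q` elements -/
noncomputable def Fam (N q : ℕ) : Finset (Finset (Fin N)) :=
  Finset.univ.filter (fun B => B.card ≤ q)

/-- coefficient of `B` in the potential -/
noncomputable def cf (q : ℕ) (B : Finset (Fin N)) : ℝ := (N : ℝ) ^ (q - B.card)

/-- potential of the weight function `f` -/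
noncomputable def pot (q : ℕ) (f : Finset (Fin N) → ℝ) : ℝ := ∑ B ∈ Fam N q, cf q B * f B

/-- potential of the weight function `f` at the edge `e` -/
noncomputable def P (q : ℕ) (f : Finset (Fin N) → ℝ) (e : Sym2 (Fin N)) : ℝ :=
  ∑ B ∈ (Fam N q).filter (fun B => inB e B), cf q B * f B

/-- the weight function `f` after the edge `e` has been taken by the second player -/
noncomputable def kill (f : Finset (Fin N) → ℝ) (e : Sym2 (Fin N)) (B : Finset (Fin N)) : ℝ :=
  if inB e B then 0 else f B

/-! ### Maker-Breaker: weights -/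

/-- the factor of `B` for the two edges of Maker in round `r` -/
noncomputable def fac (α : ℝ) (T : ℕ) (π : ℕ → Sym2 (Fin N)) (r : ℕ) (B : Finset (Fin N)) : ℝ :=
  if inB (π (4 * r)) B ∧ inB (π (4 * r + 1)) B then
    (if cheap T π r (π (4 * r)) (π (4 * r + 1)) B then α ^ 2 else 2 * α - 1)
  else if inB (π (4 * r)) B ∨ inB (π (4 * r + 1)) B then α else 1

/-- the weights after `r` rounds -/
noncomputable def wt (α : ℝ) (T : ℕ) (π : ℕ → Sym2 (Fin N)) : ℕ → Finset (Fin N) → ℝ
  | 0, _ => 1
  | r + 1, B => kill (kill (fun B => wt α T π r B * fac α T π r B) (π (4 * r + 2)))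
      (π (4 * r + 3)) B

/-- the weights in round `r` after the two moves of Maker -/
noncomputable def mw (α : ℝ) (T : ℕ) (π : ℕ → Sym2 (Fin N)) (r : ℕ) (B : Finset (Fin N)) : ℝ :=
  wt α T π r B * fac α T π r B

/-! ### Avoider-Forcer: weights -/

/-- the factor of `B` for the edge `e` of Avoider in round `r` (degrees at the beginning of the
round) -/
noncomputable def facA (α : ℝ) (T : ℕ) (π : ℕ → Sym2 (Fin N)) (r : ℕ) (e : Sym2 (Fin N))
    (B : Finset (Fin N)) : ℝ :=
  if inB e B then (if low T π r e B then α else α - 1 / 2) else 1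

/-- the weights after `r` rounds -/
noncomputable def wtA (α : ℝ) (T : ℕ) (π : ℕ → Sym2 (Fin N)) : ℕ → Finset (Fin N) → ℝ
  | 0, _ => 1
  | r + 1, B => kill (kill (fun B => wtA α T π r B * facA α T π r (π (4 * r)) B *
      facA α T π r (π (4 * r + 1)) B) (π (4 * r + 2))) (π (4 * r + 3)) B

/-- the increase of the potential of the weight function `f` when Avoider takes `e` in round
`r` -/
noncomputable def Q (q : ℕ) (α : ℝ) (T : ℕ) (π : ℕ → Sym2 (Fin N)) (r : ℕ)
    (f : Finset (Fin N) → ℝ) (e : Sym2 (Fin N)) : ℝ :=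
  ∑ B ∈ (Fam N q).filter (fun B => inB e B), cf q B * f B * (facA α T π r e B - 1)

/-- the moves of the first player in the first `R` rounds inside `A` -/
noncomputable def Kset (π : ℕ → Sym2 (Fin N)) (R : ℕ) (A : Finset (Fin N)) : Finset ℕ :=
  (Finset.range (4 * R)).filter (fun i => i % 4 < 2 ∧ inB (π i) A)

/-- those moves with both end points of degree at most `T` at the beginning of the round -/
noncomputable def Hset (T : ℕ) (π : ℕ → Sym2 (Fin N)) (R : ℕ) (A : Finset (Fin N)) : Finset ℕ :=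
  (Finset.range (4 * R)).filter
    (fun i => i % 4 < 2 ∧ inB (π i) A ∧ low T π (i / 4) (π i) A)

/-! ### Basic facts -/

theorem inB_mono {e : Sym2 (Fin N)} {B B' : Finset (Fin N)} (h : B ⊆ B') (he : inB e B) :
    inB e B' := fun v hv => h (he v hv)

theorem inB_erase {e : Sym2 (Fin N)} {B : Finset (Fin N)} {v : Fin N} :
    inB e (B.erase v) ↔ inB e B ∧ v ∉ e := by
  unfold inB
  constructor
  · intro h
    refine ⟨fun u hu => Finset.mem_of_mem_erase (h u hu), fun hv => ?_⟩
    exact Finset.ne_of_mem_erase (h v hv) rfl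
  · rintro ⟨h, hv⟩ u hu
    refine Finset.mem_erase.2 ⟨?_, h u hu⟩
    rintro rfl
    exact hv hu

theorem dg_mono {π : ℕ → Sym2 (Fin N)} {r : ℕ} {v : Fin N} {B B' : Finset (Fin N)}
    (h : B ⊆ B') : dg π r v B ≤ dg π r v B' := by
  unfold dg
  refine Finset.card_le_card fun i hi => ?_
  rw [Finset.mem_filter] at hi ⊢
  exact ⟨hi.1, hi.2.1, hi.2.2.1, inB_mono h hi.2.2.2⟩

theorem low_mono {T : ℕ} {π : ℕ → Sym2 (Fin N)} {r : ℕ} {e : Sym2 (Fin N)}
    {B B' : Finset (Fin N)} (h : B ⊆ B') (hl : low T π r e B') : low T π r e B :=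
  fun v hv => (dg_mono h).trans (hl v hv)

theorem cf_pos {q : ℕ} (hN : 1 ≤ N) (B : Finset (Fin N)) : 0 < cf q B := by
  unfold cf
  have : (0 : ℝ) < N := by exact_mod_cast hN
  positivity

theorem cf_erase {q : ℕ} {B : Finset (Fin N)} {v : Fin N} (hB : B ∈ Fam N q) (hv : v ∈ B) :
    cf q (B.erase v) = N * cf q B := by
  unfold cf
  have h1 : B.card ≤ q := (Finset.mem_filter.1 hB).2
  have h2 : 1 ≤ B.card := Finset.card_pos.2 ⟨v, hv⟩
  rw [Finset.card_erase_of_mem hv]
  have h3 : q - (B.card - 1) = (q - B.card) + 1 := by omega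
  rw [h3, pow_succ, mul_comm]

theorem erase_mem_Fam {q : ℕ} {B : Finset (Fin N)} {v : Fin N} (hB : B ∈ Fam N q) :
    B.erase v ∈ Fam N q := by
  have h1 : B.card ≤ q := (Finset.mem_filter.1 hB).2
  refine Finset.mem_filter.2 ⟨Finset.mem_univ _, ?_⟩
  exact (Finset.card_erase_le).trans h1

end C0ce
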