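import Pool.Agent.W_c0ce05_h38.Defs

/-! # Existence of plays -/

set_option autoImplicit false

namespace C0ce

open scoped Classical

variable {N : ℕ}

theorem Play_free (l : List (Sym2 (Fin N))) (hl : l.length < N.choose 2) :
    ∃ e : Sym2 (Fin N), ¬ Sym2.IsDiag e ∧ e ∉ l := by
  by_contra hcon
  have h1 : ∀ e : Sym2 (Fin N), ¬ Sym2.IsDiag e → e ∈ l := by
    intro e he
    by_contra h
    exact hcon ⟨e, he, h⟩
  have h2 : Fintype.card {a : Sym2 (Fin N) // ¬ a.IsDiag} = N.choose 2 := by
    rw [Sym2.card_subtype_not_diag, Fintype.card_fin]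
  have h3 : Fintype.card {a : Sym2 (Fin N) // ¬ a.IsDiag} ≤ l.toFinset.card := by
    rw [← Fintype.card_coe l.toFinset]
    refine Fintype.card_le_of_injective
      (fun a => (⟨a.1, List.mem_toFinset.2 (h1 a.1 a.2)⟩ : {x // x ∈ l.toFinset})) ?_
    intro a b hab
    exact Subtype.ext (Subtype.mk.inj hab)
  have h4 := l.toFinset_card_le
  omega

theorem Play_best (val : List (Sym2 (Fin N)) → Sym2 (Fin N) → ℝ) (l : List (Sym2 (Fin N)))
    (hl : l.length < N.choose 2) :
    ∃ e : Sym2 (Fin N), (¬ Sym2.IsDiag e ∧ e ∉ l) ∧
      ∀ e', ¬ Sym2.IsDiag e' → e' ∉ l → val l e' ≤ val l e := by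
  obtain ⟨e0, he0⟩ := Play_free l hl
  obtain ⟨e, he, hmax⟩ := Finset.exists_max_image
    (Finset.univ.filter (fun e : Sym2 (Fin N) => ¬ Sym2.IsDiag e ∧ e ∉ l)) (val l)
    ⟨e0, Finset.mem_filter.2 ⟨Finset.mem_univ _, he0⟩⟩
  exact ⟨e, (Finset.mem_filter.1 he).2, fun e' h1 h2 =>
    hmax e' (Finset.mem_filter.2 ⟨Finset.mem_univ _, h1, h2⟩)⟩

/-- the history of the play with moves `mv` -/
def Play_hist {E : Type} (mv : List E → ℕ → E) : ℕ → List E
  | 0 => []
  | i + 1 => Play_hist mv i ++ [mv (Play_hist mv i) i]

theorem Play_hist_eq {E : Type} (mv : List E → ℕ → E) (i : ℕ) :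
    Play_hist mv i = (List.range i).map (fun j => mv (Play_hist mv j) j) := by
  induction i with
  | zero => rfl
  | succ i ih =>
    rw [List.range_succ, List.map_append, List.map_singleton, ← ih]
    rfl

/-- TASK. Every strategy `σ` of one player (who makes the moves `i` with `own i`) has a play in
which all other moves maximise the function `val` (which may depend on the list of the previous
moves) over the free edges.

PROOF. Let `best l` be an edge `e`, not a loop and not in `l`, which maximises `val l e`, if there
is one (`Finset.exists_max_image` over the filter of `univ`), and anything otherwise. Define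
`hist : ℕ → List` by `hist 0 = []`, `hist (i+1) = hist i ++ [if own i then σ (hist i) else
best (hist i)]` and `π i` as the last element, i.e. `π i = if own i then σ (hist i) else
best (hist i)`. Then `hist i = (List.range i).map π` (`List.range_succ`). By induction on
`i ≤ N.choose 2`: `hist i` has length `i`, no duplicates and no loops; for the induction step one
needs a free edge: the number of non-loops is `N.choose 2`
(`Sym2.card_image_offDiag`, or `Sym2.card_subtype_not_diag`), more than `i = length`. -/
theorem play_exists (hN : 1 ≤ N) (own : ℕ → Prop) (σ : List (Sym2 (Fin N)) → Sym2 (Fin N))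
    (hσ : ∀ l : List (Sym2 (Fin N)), l.Nodup → (∀ e ∈ l, ¬ Sym2.IsDiag e) →
      l.length < N.choose 2 → ¬ Sym2.IsDiag (σ l) ∧ σ l ∉ l)
    (val : List (Sym2 (Fin N)) → Sym2 (Fin N) → ℝ) :
    ∃ π : ℕ → Sym2 (Fin N),
      (∀ i < N.choose 2, ¬ Sym2.IsDiag (π i)) ∧
      (∀ i < N.choose 2, ∀ j < N.choose 2, π i = π j → i = j) ∧
      (∀ i < N.choose 2, own i → π i = σ ((List.range i).map π)) ∧
      (∀ i < N.choose 2, ¬ own i → ∀ e, ¬ Sym2.IsDiag e → (∀ j < i, π j ≠ e) →
        val ((List.range i).map π) e ≤ val ((List.range i).map π) (π i)) := by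
  let best : List (Sym2 (Fin N)) → Sym2 (Fin N) := fun l =>
    if h : l.length < N.choose 2 then (Play_best val l h).choose else σ l
  have hbest : ∀ l : List (Sym2 (Fin N)), l.length < N.choose 2 →
      (¬ Sym2.IsDiag (best l) ∧ best l ∉ l) ∧
      ∀ e', ¬ Sym2.IsDiag e' → e' ∉ l → val l e' ≤ val l (best l) := by
    intro l h
    have h1 : best l = (Play_best val l h).choose := dif_pos h
    rw [h1]
    exact (Play_best val l h).choose_spec
  let mv : List (Sym2 (Fin N)) → ℕ → Sym2 (Fin N) := fun l i => if own i then σ l else best l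
  let π : ℕ → Sym2 (Fin N) := fun i => mv (Play_hist mv i) i
  have hhist : ∀ i, Play_hist mv i = (List.range i).map π := Play_hist_eq mv
  have hlen : ∀ i, (Play_hist mv i).length = i := by
    intro i
    rw [hhist, List.length_map, List.length_range]
  have hlegal : ∀ i, i ≤ N.choose 2 → (Play_hist mv i).Nodup ∧
      ∀ e ∈ Play_hist mv i, ¬ Sym2.IsDiag e := by
    intro i
    induction i with
    | zero =>
      intro _
      exact ⟨List.nodup_nil, fun e he => absurd he List.not_mem_nil⟩
    | succ i ih =>
      intro hi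
      obtain ⟨h1, h2⟩ := ih (by omega)
      have h3 : ¬ Sym2.IsDiag (mv (Play_hist mv i) i) ∧
          mv (Play_hist mv i) i ∉ Play_hist mv i := by
        by_cases ho : own i
        · have h4 : mv (Play_hist mv i) i = σ (Play_hist mv i) := if_pos ho
          rw [h4]
          exact hσ _ h1 h2 (by rw [hlen]; omega)
        · have h4 : mv (Play_hist mv i) i = best (Play_hist mv i) := if_neg ho
          rw [h4]
          exact (hbest _ (by rw [hlen]; omega)).1
      refine ⟨?_, ?_⟩
      · show (Play_hist mv i ++ [mv (Play_hist mv i) i]).Nodup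
        rw [List.nodup_append]
        refine ⟨h1, List.nodup_singleton _, ?_⟩
        intro a ha b hb hab
        rw [List.mem_singleton] at hb
        rw [hb] at hab
        rw [hab] at ha
        exact h3.2 ha
      · intro e he
        rcases List.mem_append.1 (show e ∈ Play_hist mv i ++ [mv (Play_hist mv i) i] from he)
          with h | h
        · exact h2 e h
        · rw [List.mem_singleton.1 h]
          exact h3.1
  have hmove : ∀ i, i < N.choose 2 → ¬ Sym2.IsDiag (π i) ∧ π i ∉ Play_hist mv i := by
    intro i hi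
    obtain ⟨h1, h2⟩ := hlegal i hi.le
    by_cases ho : own i
    · have h4 : π i = σ (Play_hist mv i) := if_pos ho
      rw [h4]
      exact hσ _ h1 h2 (by rw [hlen]; omega)
    · have h4 : π i = best (Play_hist mv i) := if_neg ho
      rw [h4]
      exact (hbest _ (by rw [hlen]; omega)).1
  refine ⟨π, fun i hi => (hmove i hi).1, ?_, ?_, ?_⟩
  · have hlt : ∀ i j, i < j → j < N.choose 2 → π i ≠ π j := by
      intro i j hij hj heq
      apply (hmove j hj).2
      rw [hhist j, ← heq]
      exact List.mem_map.2 ⟨i, List.mem_range.2 hij, rfl⟩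
    intro i hi j hj heq
    rcases lt_trichotomy i j with h | h | h
    · exact absurd heq (hlt i j h hj)
    · exact h
    · exact absurd heq.symm (hlt j i h hi)
  · intro i _ ho
    rw [← hhist i]
    exact if_pos ho
  · intro i hi ho e he hfree
    have h4 : π i = best (Play_hist mv i) := if_neg ho
    rw [← hhist i, h4]
    refine (hbest _ (by rw [hlen]; exact hi)).2 e he ?_
    rw [hhist i]
    intro hmem
    obtain ⟨j, hj, hje⟩ := List.mem_map.1 hmem
    exact hfree j (List.mem_range.1 hj) hje

end C0ce
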