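import Pool.Agent.W_c0ce05_h38.InvM

/-! # Avoider-Forcer: the invariant of the weights -/

set_option autoImplicit false

namespace C0ce

open scoped Classical

variable {N : ℕ}

/-- TASK. Case distinction. -/
theorem one_le_facA {α : ℝ} (hα : 3 / 2 ≤ α) (T : ℕ) (π : ℕ → Sym2 (Fin N)) (r : ℕ)
    (e : Sym2 (Fin N)) (B : Finset (Fin N)) : 1 ≤ facA α T π r e B := by
  unfold facA
  split_ifs
  · linarith
  · linarith
  · exact le_rfl

/-- TASK. Induction on `r`. -/
theorem wtA_nonneg {α : ℝ} (hα : 3 / 2 ≤ α) (T : ℕ) (π : ℕ → Sym2 (Fin N)) (r : ℕ)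
    (B : Finset (Fin N)) : 0 ≤ wtA α T π r B := by
  induction r generalizing B with
  | zero => simp only [wtA, zero_le_one]
  | succ r ih =>
    simp only [wtA]
    refine kill_nonneg (fun B => kill_nonneg (fun B => ?_) _ _) _ _
    exact mul_nonneg (mul_nonneg (ih B) (zero_le_one.trans (one_le_facA hα T π r _ B)))
      (zero_le_one.trans (one_le_facA hα T π r _ B))

/-- TASK. If `e` does not lie in `B` both factors are `1`. If it does and `v ∈ e`, the left side is
at most `α ≤ 2` and the factor on the right is `2 * 1`. If `v ∉ e`, use `low_mono`. -/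
theorem facA_erase {α : ℝ} (hα : 3 / 2 ≤ α) (hα2 : α ≤ 2) (T : ℕ) (π : ℕ → Sym2 (Fin N)) (r : ℕ)
    (e : Sym2 (Fin N)) (v : Fin N) (B : Finset (Fin N)) :
    facA α T π r e B ≤ 2 ^ (if v ∈ e ∧ inB e B then 1 else 0) * facA α T π r e (B.erase v) := by
  have hlow : low T π r e B → low T π r e (B.erase v) := low_mono (Finset.erase_subset _ _)
  unfold facA
  simp only [inB_erase]
  by_cases p1 : inB e B
  · by_cases v1 : v ∈ e
    · simp only [p1, v1, and_self, not_true, and_false, if_true, if_false, pow_one, mul_one]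
      split_ifs
      · exact hα2
      · linarith
    · simp only [p1, v1, false_and, not_false_iff, and_self, if_true, if_false, pow_zero, one_mul]
      by_cases l1 : low T π r e B
      · rw [if_pos l1, if_pos (hlow l1)]
      · rw [if_neg l1]
        split_ifs
        · linarith
        · exact le_rfl
  · simp only [p1, and_false, false_and, if_false, pow_zero, mul_one, le_refl]

/-- TASK. Induction on `r`, with `dg_succ` and twice `facA_erase`. -/
theorem inv_wtA {α : ℝ} (hα : 3 / 2 ≤ α) (hα2 : α ≤ 2) (T : ℕ) (π : ℕ → Sym2 (Fin N)) (r : ℕ)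
    (B : Finset (Fin N)) (v : Fin N) :
    wtA α T π r B ≤ 2 ^ dg π r v B * wtA α T π r (B.erase v) := by
  induction r generalizing B with
  | zero =>
    simp only [wtA, mul_one]
    exact one_le_pow₀ (by norm_num)
  | succ r ih =>
    have hnn : 0 ≤ (2 : ℝ) ^ dg π (r + 1) v B * wtA α T π (r + 1) (B.erase v) :=
      mul_nonneg (by positivity) (wtA_nonneg hα T π (r + 1) _)
    by_cases h4 : inB (π (4 * r + 3)) B
    · refine le_trans (le_of_eq ?_) hnn
      simp only [wtA, kill, h4, if_true]
    by_cases h3 : inB (π (4 * r + 2)) B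
    · refine le_trans (le_of_eq ?_) hnn
      simp only [wtA, kill, h4, h3, if_true, if_false]
    have h4' : ¬ inB (π (4 * r + 3)) (B.erase v) := fun h => h4 (inB_mono (Finset.erase_subset _ _) h)
    have h3' : ¬ inB (π (4 * r + 2)) (B.erase v) := fun h => h3 (inB_mono (Finset.erase_subset _ _) h)
    simp only [wtA, kill, h4, h3, h4', h3', if_false]
    have hf := facA_erase hα hα2 T π r (π (4 * r)) v B
    have hg := facA_erase hα hα2 T π r (π (4 * r + 1)) v B
    have hw := wtA_nonneg hα T π r (B.erase v)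
    have hf0 : 0 ≤ facA α T π r (π (4 * r)) B := zero_le_one.trans (one_le_facA hα T π r _ B)
    have hg0 : 0 ≤ facA α T π r (π (4 * r + 1)) B := zero_le_one.trans (one_le_facA hα T π r _ B)
    have hf1 : 0 ≤ facA α T π r (π (4 * r)) (B.erase v) :=
      zero_le_one.trans (one_le_facA hα T π r _ _)
    rw [dg_succ, pow_add, pow_add]
    calc wtA α T π r B * facA α T π r (π (4 * r)) B * facA α T π r (π (4 * r + 1)) B
        ≤ (2 ^ dg π r v B * wtA α T π r (B.erase v)) * facA α T π r (π (4 * r)) B *
            facA α T π r (π (4 * r + 1)) B :=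
          mul_le_mul_of_nonneg_right (mul_le_mul_of_nonneg_right (ih B) hf0) hg0
      _ ≤ (2 ^ dg π r v B * wtA α T π r (B.erase v)) *
          (2 ^ (if v ∈ π (4 * r) ∧ inB (π (4 * r)) B then 1 else 0) *
            facA α T π r (π (4 * r)) (B.erase v)) *
          (2 ^ (if v ∈ π (4 * r + 1) ∧ inB (π (4 * r + 1)) B then 1 else 0) *
            facA α T π r (π (4 * r + 1)) (B.erase v)) := by
          refine mul_le_mul (mul_le_mul_of_nonneg_left hf (mul_nonneg (by positivity) hw)) hg hg0 ?_
          exact mul_nonneg (mul_nonneg (by positivity) hw) (mul_nonneg (by positivity) hf1)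
      _ = _ := by ring

end C0ce
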