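import Pool.Agent.W_c0ce05_h38.ProdM
import Pool.Agent.W_c0ce05_h38.InvA

/-! # Avoider-Forcer: the weight of a set without edges of Forcer -/

set_option autoImplicit false

namespace C0ce

open scoped Classical

variable {N : ℕ}

theorem ProdA_facA {α β : ℝ} (hα : 3 / 2 ≤ α) (hβ : β = α - 1 / 2) (T : ℕ)
    (π : ℕ → Sym2 (Fin N)) (r : ℕ) (e : Sym2 (Fin N)) (A : Finset (Fin N)) :
    facA α T π r e A =
      (α / β) ^ (if inB e A ∧ low T π r e A then 1 else 0) * β ^ (if inB e A then 1 else 0) := by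
  have hβ0 : β ≠ 0 := by
    have : (1 : ℝ) ≤ β := by rw [hβ]; linarith
    linarith
  unfold facA
  by_cases h1 : inB e A
  · by_cases h2 : low T π r e A
    · rw [if_pos h1, if_pos h2, if_pos ⟨h1, h2⟩, if_pos h1, pow_one, pow_one,
        div_mul_cancel₀ α hβ0]
    · rw [if_pos h1, if_neg h2, if_neg (fun h => h2 h.2), if_pos h1, pow_zero, pow_one, one_mul,
        hβ]
  · rw [if_neg h1, if_neg (fun h => h1 h.1), if_neg h1, pow_zero, pow_zero, one_mul]

/-- TASK. Induction on `R` with `card_Kset_succ`, `card_Hset_succ`: the factor of an edge inside `A`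
is `α` if it is `low` and `β` otherwise (equality holds). -/
theorem wtA_ge {α β : ℝ} (hα : 3 / 2 ≤ α) (hβ : β = α - 1 / 2) (T : ℕ)
    (π : ℕ → Sym2 (Fin N)) (R : ℕ) (A : Finset (Fin N))
    (hA : ∀ i < 4 * R, 2 ≤ i % 4 → ¬ inB (π i) A) :
    (α / β) ^ (Hset T π R A).card * β ^ (Kset π R A).card ≤ wtA α T π R A := by
  induction R with
  | zero =>
    have h1 : (Hset T π 0 A).card = 0 := by simp [Hset]
    have h2 : (Kset π 0 A).card = 0 := by simp [Kset]
    rw [h1, h2, pow_zero, pow_zero, one_mul]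
    exact le_of_eq rfl
  | succ R ih =>
    have ih' := ih (fun i hi h => hA i (by omega) h)
    have h2 : ¬ inB (π (4 * R + 2)) A := hA _ (by omega) (by omega)
    have h3 : ¬ inB (π (4 * R + 3)) A := hA _ (by omega) (by omega)
    have h4 : wtA α T π (R + 1) A = wtA α T π R A * facA α T π R (π (4 * R)) A *
        facA α T π R (π (4 * R + 1)) A := by
      show kill (kill (fun B => wtA α T π R B * facA α T π R (π (4 * R)) B *
        facA α T π R (π (4 * R + 1)) B) (π (4 * R + 2))) (π (4 * R + 3)) A = _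
      rw [kill, if_neg h3, kill, if_neg h2]
    have hf1 : 0 ≤ facA α T π R (π (4 * R)) A := zero_le_one.trans (one_le_facA hα T π R _ A)
    have hf2 : 0 ≤ facA α T π R (π (4 * R + 1)) A := zero_le_one.trans (one_le_facA hα T π R _ A)
    rw [h4, card_Kset_succ, card_Hset_succ, pow_add, pow_add, pow_add, pow_add]
    calc _ = ((α / β) ^ (Hset T π R A).card * β ^ (Kset π R A).card) *
          facA α T π R (π (4 * R)) A * facA α T π R (π (4 * R + 1)) A := by
          rw [ProdA_facA hα hβ, ProdA_facA hα hβ]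
          ring
      _ ≤ _ := mul_le_mul_of_nonneg_right (mul_le_mul_of_nonneg_right ih' hf1) hf2

end C0ce
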