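import Pool.Agent.W_c0ce05_h38.Charge
import Pool.Agent.W_c0ce05_h38.InvA

/-! # Avoider-Forcer: the potential does not increase -/

set_option autoImplicit false

namespace C0ce

open scoped Classical

variable {N q : ℕ}

/-- TASK. Pointwise `facA B = 1 + [inB e B] (facA B - 1)`. -/
theorem pot_facA (α : ℝ) (T : ℕ) (π : ℕ → Sym2 (Fin N)) (r : ℕ) (f : Finset (Fin N) → ℝ)
    (e : Sym2 (Fin N)) :
    pot q (fun B => f B * facA α T π r e B) = pot q f + Q q α T π r f e := by
  unfold pot Q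
  rw [Finset.sum_filter, ← Finset.sum_add_distrib]
  refine Finset.sum_congr rfl fun B _ => ?_
  by_cases h : inB e B
  · rw [if_pos h]
    ring
  · simp only [facA, if_neg h]
    ring

theorem StepA_exists_mem {a b : Sym2 (Fin N)} (ha : ¬ Sym2.IsDiag a)
    (hab : a ≠ b) : ∃ v, v ∈ a ∧ v ∉ b := by
  induction a using Sym2.ind with
  | _ x y =>
    have hxy : x ≠ y := by
      intro h
      exact ha (by rw [h]; exact Sym2.mk_isDiag_iff.2 rfl)
    by_contra hcon
    push Not at hcon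
    have hx : x ∈ b := hcon x (Sym2.mem_mk_left x y)
    have hy : y ∈ b := hcon y (Sym2.mem_mk_right x y)
    exact hab ((Sym2.mem_and_mem_iff hxy).1 ⟨hx, hy⟩).symm

theorem StepA_cf_nonneg (B : Finset (Fin N)) : 0 ≤ cf q B := by
  unfold cf
  positivity

/-- weight of the sets in which the edge is not low -/
noncomputable def StepA_H (q T : ℕ) (π : ℕ → Sym2 (Fin N)) (r : ℕ) (f : Finset (Fin N) → ℝ)
    (e : Sym2 (Fin N)) : ℝ :=
  ∑ B ∈ (Fam N q).filter (fun B => inB e B ∧ ¬ low T π r e B), cf q B * f B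

theorem StepA_Q_eq (α : ℝ) (T : ℕ) (π : ℕ → Sym2 (Fin N)) (r : ℕ) (f : Finset (Fin N) → ℝ)
    (e : Sym2 (Fin N)) :
    Q q α T π r f e = (α - 1) * P q f e - StepA_H q T π r f e / 2 := by
  unfold Q P StepA_H
  have h1 : (Fam N q).filter (fun B => inB e B ∧ ¬ low T π r e B) =
      ((Fam N q).filter (fun B => inB e B)).filter (fun B => ¬ low T π r e B) := by
    rw [Finset.filter_filter]
  rw [h1, Finset.sum_filter (s := (Fam N q).filter (fun B => inB e B)), Finset.mul_sum,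
    Finset.sum_div, ← Finset.sum_sub_distrib]
  refine Finset.sum_congr rfl fun B hB => ?_
  have hB2 : inB e B := (Finset.mem_filter.1 hB).2
  unfold facA
  rw [if_pos hB2]
  by_cases h : low T π r e B
  · rw [if_pos h, if_neg (not_not.2 h)]
    ring
  · rw [if_neg h, if_pos h]
    ring

theorem StepA_rest {T : ℕ} {π : ℕ → Sym2 (Fin N)} {r : ℕ} {f : Finset (Fin N) → ℝ}
    (hf : ∀ B, 0 ≤ f B) {a b : Sym2 (Fin N)} {e : Sym2 (Fin N)}
    (h : ∀ B, inB a B → inB b B → ¬ cheap T π r a b B → inB e B ∧ ¬ low T π r e B) :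
    ∑ B ∈ (Fam N q).filter (fun B => inB a B ∧ inB b B ∧ ¬ cheap T π r a b B), cf q B * f B ≤
      StepA_H q T π r f e := by
  unfold StepA_H
  refine Finset.sum_le_sum_of_subset_of_nonneg ?_ ?_
  · intro B hB
    rw [Finset.mem_filter] at hB ⊢
    exact ⟨hB.1, h B hB.2.1 hB.2.2.1 hB.2.2.2⟩
  · intro B _ _
    exact mul_nonneg (StepA_cf_nonneg B) (hf B)

theorem StepA_PP_split (T : ℕ) (π : ℕ → Sym2 (Fin N)) (r : ℕ) (f : Finset (Fin N) → ℝ)
    (a b : Sym2 (Fin N)) :
    PP q f a b =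
      ∑ B ∈ (Fam N q).filter (fun B => inB a B ∧ inB b B ∧ cheap T π r a b B), cf q B * f B +
      ∑ B ∈ (Fam N q).filter (fun B => inB a B ∧ inB b B ∧ ¬ cheap T π r a b B),
        cf q B * f B := by
  unfold PP
  rw [← Finset.sum_filter_add_sum_filter_not ((Fam N q).filter (fun B => inB a B ∧ inB b B))
    (fun B => cheap T π r a b B) (fun B => cf q B * f B), Finset.filter_filter,
    Finset.filter_filter]
  congr 1
  · refine Finset.sum_congr ?_ fun _ _ => rfl
    ext B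
    simp only [Finset.mem_filter]
    tauto
  · refine Finset.sum_congr ?_ fun _ _ => rfl
    ext B
    simp only [Finset.mem_filter]
    tauto

/-- TASK. Let `f'' ≥ 0` be a weight function with `f'' B ≤ 4 * 2 ^ dg π r v B * f'' (B.erase v)`, and
`a ≠ b` edges which are not loops. Then the sum of the two `Q` and the pair term is at most the sum
of the two `P`.

PROOF. Let `κ = 2 ^ (T + 3) / N ≤ 2 - α`. Split the pair term `PP` into the cheap part, at most
`2 * (4 * 2 ^ T / N) * (P a + P b) = κ * (P a + P b)` by `pair_bound` (`K = 4 * 2 ^ T`), and the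
rest. If `B` contains both edges and is not cheap then neither `low a B` nor `low b B` (each edge has
a vertex which is not in the other one), so the rest is at most `(H a + H b) / 2`, where
`H e = ∑ cf q B * f'' B` over the `B` with `inB e B` and `¬ low e B`. Finally
`Q e = (α - 1) (P e - H e) + (α - 3 / 2) H e = (α - 1) P e - H e / 2`. So the left side is at most
`(α - 1 + κ) * (P a + P b) ≤ P a + P b`. -/
theorem Q_bound {α : ℝ} (hα : 3 / 2 ≤ α) {T : ℕ} (hN : 1 ≤ N)
    (hT : (2 : ℝ) ^ (T + 3) ≤ N * (2 - α)) (π : ℕ → Sym2 (Fin N)) (r : ℕ)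
    {f : Finset (Fin N) → ℝ} (hf : ∀ B, 0 ≤ f B)
    (hinv : ∀ B v, v ∈ B → f B ≤ 4 * 2 ^ dg π r v B * f (B.erase v))
    {a b : Sym2 (Fin N)} (ha : ¬ Sym2.IsDiag a) (hb : ¬ Sym2.IsDiag b) (hab : a ≠ b) :
    Q q α T π r f a + Q q α T π r f b + PP q f a b ≤ P q f a + P q f b := by
  have hNpos : (0 : ℝ) < N := by exact_mod_cast hN
  have hlow : ∀ B, ¬ cheap T π r a b B → ¬ low T π r a B ∧ ¬ low T π r b B := by
    intro B hc
    constructor
    · intro hl
      obtain ⟨v, hv1, hv2⟩ := StepA_exists_mem ha hab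
      exact hc ⟨v, Or.inl ⟨hv1, hv2⟩, hl v hv1⟩
    · intro hl
      obtain ⟨v, hv1, hv2⟩ := StepA_exists_mem hb hab.symm
      exact hc ⟨v, Or.inr ⟨hv1, hv2⟩, hl v hv1⟩
  have hpair := pair_bound (q := q) (T := T) (π := π) (r := r) (f := f) (K := 4 * 2 ^ T) hN hf
    (by positivity) (fun B v hv hd => by
      refine (hinv B v hv).trans ?_
      refine mul_le_mul_of_nonneg_right ?_ (hf _)
      have : (2 : ℝ) ^ dg π r v B ≤ 2 ^ T := pow_le_pow_right₀ (by norm_num) hd
      linarith) a b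
  have hra := StepA_rest (q := q) (T := T) (π := π) (r := r) (f := f) hf (a := a) (b := b) (e := a)
    (fun B h1 _ h3 => ⟨h1, (hlow B h3).1⟩)
  have hrb := StepA_rest (q := q) (T := T) (π := π) (r := r) (f := f) hf (a := a) (b := b) (e := b)
    (fun B _ h2 h3 => ⟨h2, (hlow B h3).2⟩)
  rw [StepA_PP_split T π r f a b, StepA_Q_eq, StepA_Q_eq]
  have hPa := P_nonneg (q := q) hf a
  have hPb := P_nonneg (q := q) hf b
  have hkap : 2 * (4 * 2 ^ T / (N : ℝ)) ≤ 2 - α := by
    have h1 : 2 * (4 * 2 ^ T / (N : ℝ)) = 2 ^ (T + 3) / N := by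
      rw [pow_add]
      ring
    rw [h1, div_le_iff₀ hNpos]
    linarith
  have hmul := mul_le_mul_of_nonneg_right hkap (add_nonneg hPa hPb)
  linarith

/-- TASK. Let `g = wtA α T π r`, `g' B = g B * facA (π (4r)) B`,
`g'' B = g' B * facA (π (4r+1)) B`. By `pot_facA` twice `pot q g'' = pot q g + Q g (π (4r)) +
Q g' (π (4r+1))`, and `Q g (π (4r)) ≤ Q g (π (4r+2)) ≤ Q g'' (π (4r+2))` by `h1` and monotonicity of
`Q` in the weight function (`g ≤ g''`, `one_le_facA`), similarly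
`Q g' (π (4r+1)) ≤ Q g'' (π (4r+3))` by `h2`. By `pot_kill`, `P_kill`:
`pot q (wtA (r+1)) = pot q g'' - P g'' (π (4r+2)) - P g'' (π (4r+3)) + PP g'' _ _`. Use `Q_bound`;
its hypothesis `hinv` follows from `inv_wtA` and `facA_erase` (twice; the exponents are at most 1).
-/
theorem step_A {α : ℝ} (hα : 3 / 2 ≤ α) (hα2 : α ≤ 2) {T : ℕ} (hN : 1 ≤ N)
    (hT : (2 : ℝ) ^ (T + 3) ≤ N * (2 - α)) (π : ℕ → Sym2 (Fin N)) (r : ℕ)
    (hd2 : ¬ Sym2.IsDiag (π (4 * r + 2))) (hd3 : ¬ Sym2.IsDiag (π (4 * r + 3)))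
    (hne : π (4 * r + 2) ≠ π (4 * r + 3))
    (h1 : Q q α T π r (wtA α T π r) (π (4 * r)) ≤ Q q α T π r (wtA α T π r) (π (4 * r + 2)))
    (h2 : Q q α T π r (fun B => wtA α T π r B * facA α T π r (π (4 * r)) B) (π (4 * r + 1)) ≤
      Q q α T π r (fun B => wtA α T π r B * facA α T π r (π (4 * r)) B) (π (4 * r + 3))) :
    pot q (wtA α T π (r + 1)) ≤ pot q (wtA α T π r) := by
  set g : Finset (Fin N) → ℝ := wtA α T π r with hg
  set g' : Finset (Fin N) → ℝ := fun B => g B * facA α T π r (π (4 * r)) B with hg'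
  set g'' : Finset (Fin N) → ℝ := fun B => g' B * facA α T π r (π (4 * r + 1)) B with hg''
  have hg0 : ∀ B, 0 ≤ g B := fun B => wtA_nonneg hα T π r B
  have hf1 : ∀ e B, 1 ≤ facA α T π r e B := fun e B => one_le_facA hα T π r e B
  have hf0 : ∀ e B, 0 ≤ facA α T π r e B := fun e B => zero_le_one.trans (hf1 e B)
  have hg'0 : ∀ B, 0 ≤ g' B := fun B => mul_nonneg (hg0 B) (hf0 _ B)
  have hg''0 : ∀ B, 0 ≤ g'' B := fun B => mul_nonneg (hg'0 B) (hf0 _ B)
  have hle1 : ∀ B, g B ≤ g' B := fun B => le_mul_of_one_le_right (hg0 B) (hf1 _ B)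
  have hle2 : ∀ B, g' B ≤ g'' B := fun B => le_mul_of_one_le_right (hg'0 B) (hf1 _ B)
  have hwt : wtA α T π (r + 1) = kill (kill g'' (π (4 * r + 2))) (π (4 * r + 3)) := by
    funext B
    rfl
  have hp1 : pot q g'' = pot q g' + Q q α T π r g' (π (4 * r + 1)) := pot_facA α T π r g' _
  have hp2 : pot q g' = pot q g + Q q α T π r g (π (4 * r)) := pot_facA α T π r g _
  have hQm : ∀ (f h : Finset (Fin N) → ℝ) (e : Sym2 (Fin N)), (∀ B, f B ≤ h B) →
      Q q α T π r f e ≤ Q q α T π r h e := by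
    intro f h e hfh
    unfold Q
    refine Finset.sum_le_sum fun B _ => ?_
    refine mul_le_mul_of_nonneg_right ?_ (by linarith [hf1 e B])
    exact mul_le_mul_of_nonneg_left (hfh B) (StepA_cf_nonneg B)
  have hq1 := h1.trans (hQm g g'' (π (4 * r + 2)) fun B => (hle1 B).trans (hle2 B))
  have hq2 := h2.trans (hQm g' g'' (π (4 * r + 3)) hle2)
  have hfe : ∀ (e : Sym2 (Fin N)) (v : Fin N) (B : Finset (Fin N)),
      facA α T π r e B ≤ 2 * facA α T π r e (B.erase v) := by
    intro e v B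
    refine (facA_erase hα hα2 T π r e v B).trans ?_
    refine mul_le_mul_of_nonneg_right ?_ (hf0 _ _)
    split_ifs
    · norm_num
    · norm_num
  have hinv : ∀ B v, v ∈ B → g'' B ≤ 4 * 2 ^ dg π r v B * g'' (B.erase v) := by
    intro B v _
    have e1 := inv_wtA hα hα2 T π r B v
    have e2 := hfe (π (4 * r)) v B
    have e3 := hfe (π (4 * r + 1)) v B
    have e4 : g' B ≤ 2 ^ dg π r v B * g (B.erase v) *
        (2 * facA α T π r (π (4 * r)) (B.erase v)) :=
      mul_le_mul e1 e2 (hf0 _ _) (mul_nonneg (by positivity) (hg0 _))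
    have e5 : g'' B ≤ 2 ^ dg π r v B * g (B.erase v) *
        (2 * facA α T π r (π (4 * r)) (B.erase v)) *
        (2 * facA α T π r (π (4 * r + 1)) (B.erase v)) :=
      mul_le_mul e4 e3 (hf0 _ _)
        (mul_nonneg (mul_nonneg (by positivity) (hg0 _)) (mul_nonneg (by norm_num) (hf0 _ _)))
    refine e5.trans (le_of_eq ?_)
    simp only [hg', hg'']
    ring
  have hQb := Q_bound (q := q) hα hN hT π r hg''0 hinv hd2 hd3 hne
  rw [hwt, pot_kill, pot_kill, P_kill, hp1, hp2]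
  linarith

end C0ce
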