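import Pool.Agent.W_c0ce05_h38.Seq
import Pool.Agent.W_c0ce05_h38.Play
import Pool.Agent.W_c0ce05_h38.StepA
import Pool.Agent.W_c0ce05_h38.ProdA
import Pool.Agent.W_c0ce05_h38.Cnt
import Pool.Agent.W_c0ce05_h38.Comp
import Pool.Agent.W_c0ce05_h38.Asy

/-! # Avoider-Forcer: no large clique for large `N` -/

set_option autoImplicit false

namespace C0ce

open scoped Classical

variable {N q : ℕ}

/-- the final inequality for a clique of Avoider -/
theorem FinA_ineq {α β : ℝ} (hα : 3 / 2 ≤ α) (hβ : β = α - 1 / 2) (hα2 : α ≤ 2)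
    {T : ℕ} (hT : (2 : ℝ) ^ (T + 3) ≤ N * (2 - α)) (hTq : T + 4 ≤ q) (hq : 4 ≤ N.choose 2)
    (π : ℕ → Sym2 (Fin N)) (hdiag : ∀ i < N.choose 2, ¬ Sym2.IsDiag (π i))
    (hinj : ∀ i < N.choose 2, ∀ j < N.choose 2, π i = π j → i = j)
    (h0 : ∀ r, 4 * r < N.choose 2 → ∀ e, ¬ Sym2.IsDiag e → (∀ j < 4 * r, π j ≠ e) →
      Q q α T π r (wtA α T π r) (π (4 * r)) ≤ Q q α T π r (wtA α T π r) e)
    (h1 : ∀ r, 4 * r + 1 < N.choose 2 → ∀ e, ¬ Sym2.IsDiag e → (∀ j < 4 * r + 1, π j ≠ e) →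
      Q q α T π r (fun B => wtA α T π r B * facA α T π r (π (4 * r)) B) (π (4 * r + 1)) ≤
        Q q α T π r (fun B => wtA α T π r B * facA α T π r (π (4 * r)) B) e)
    (A : Finset (Fin N)) (hAq : A.card = q)
    (hA : ∀ x ∈ A, ∀ y ∈ A, x ≠ y → ∃ i < N.choose 2, i % 4 < 2 ∧ π i = s(x, y)) :
    (α / β) ^ ((T + 1) * (T + 2) / 2) * β ^ (q.choose 2 - 2) ≤
      4 * (((q : ℝ) + 1) * (N : ℝ) ^ q) := by
  have hβ1 : 1 ≤ β := by rw [hβ]; linarith
  have hβα : β ≤ α := by rw [hβ]; linarith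
  have hN : 1 ≤ N := by
    rcases Nat.eq_zero_or_pos N with h | h
    · rw [h] at hq
      simp at hq
    · exact h
  set R := N.choose 2 / 4 with hR
  have hR4 : 4 * R ≤ N.choose 2 := Nat.mul_div_le _ _
  have hne : ∀ i j, i < N.choose 2 → j < N.choose 2 → i ≠ j → π i ≠ π j :=
    fun i j hi hj hij h => hij (hinj i hi j hj h)
  -- the potential does not increase
  have hstep : ∀ r, r + 1 ≤ R → pot q (wtA α T π (r + 1)) ≤ pot q (wtA α T π r) := by
    intro r hr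
    refine step_A hα hα2 hN hT π r (hdiag _ (by omega)) (hdiag _ (by omega))
      (hne _ _ (by omega) (by omega) (by omega)) ?_ ?_
    · exact h0 r (by omega) _ (hdiag _ (by omega)) fun j hj =>
        hne _ _ (by omega) (by omega) (by omega)
    · exact h1 r (by omega) _ (hdiag _ (by omega)) fun j hj =>
        hne _ _ (by omega) (by omega) (by omega)
  have hall : ∀ r, r ≤ R → pot q (wtA α T π r) ≤ pot q (wtA α T π 0) := by
    intro r
    induction r with
    | zero => intro _; exact le_rfl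
    | succ r ih =>
      intro hr
      exact (hstep r hr).trans (ih (by omega))
  have hpot0 : pot q (wtA α T π 0) ≤ ((q : ℝ) + 1) * (N : ℝ) ^ q := by
    have h2 : wtA α T π 0 = fun _ => 1 := rfl
    rw [h2]
    exact pot_one
  have hpos : 0 ≤ ((q : ℝ) + 1) * (N : ℝ) ^ q := by positivity
  have hwA : wtA α T π R A ≤ 4 * (((q : ℝ) + 1) * (N : ℝ) ^ q) := by
    have h2 := (single_le_pot (wtA_nonneg hα T π R) hAq).trans ((hall _ le_rfl).trans hpot0)
    linarith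
  refine le_trans ?_ hwA
  -- lower bound for the weight
  have hK := comp_K π (N.choose 2) A hA
  have hdg : ∀ v ∈ A, T + 1 ≤ dg π R v A := by
    intro v hv
    have h5 := comp_dg π (N.choose 2) A hA v hv
    rw [← hR] at h5
    omega
  have halive := comp_alive π (N.choose 2) A hdiag hinj hA
  have hH := cnt T π R A (fun i hi => hdiag i (by omega))
    (fun i hi j hj => hinj i (by omega) j (by omega)) hdg (by omega)
  have hge := wtA_ge hα hβ T π R A (fun i hi => halive i (by omega))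
  refine le_trans ?_ hge
  have hβ0 : 0 < β := lt_of_lt_of_le one_pos hβ1
  have hr1 : 1 ≤ α / β := by
    rw [le_div_iff₀ hβ0, one_mul]
    exact hβα
  refine mul_le_mul (pow_le_pow_right₀ hr1 ?_) (pow_le_pow_right₀ hβ1 ?_) (by positivity)
    (by positivity)
  · omega
  · rw [hAq, ← hR] at hK
    omega

/-- For large `N` every strategy of Forcer has a play without an Avoider clique of size
`⌊c log₂ N⌋ + 1`. -/
theorem finA {α β c : ℝ} (hα : 3 / 2 < α) (hβ : β = α - 1 / 2) (hα2 : α < 2)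
    (hc : 1 < c)
    (h : 2 * c < c ^ 2 * Real.logb 2 β + (Real.logb 2 α - Real.logb 2 β)) :
    ∃ N₀ : ℕ, ∀ N : ℕ, N₀ ≤ N → ∀ σ : List (Sym2 (Fin N)) → Sym2 (Fin N),
      (∀ l : List (Sym2 (Fin N)), l.Nodup → (∀ e ∈ l, ¬ Sym2.IsDiag e) →
        l.length < N.choose 2 → ¬ Sym2.IsDiag (σ l) ∧ σ l ∉ l) →
      ∃ π : ℕ → Sym2 (Fin N),
        (∀ i < N.choose 2, ¬ Sym2.IsDiag (π i)) ∧
        (∀ i < N.choose 2, ∀ j < N.choose 2, π i = π j → i = j) ∧
        (∀ i < N.choose 2, 2 ≤ i % 4 → π i = σ ((List.range i).map π)) ∧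
        ¬ ∃ s : Finset (Fin N), s.card = ⌊c * Real.logb 2 N⌋₊ + 1 ∧
          ∀ x ∈ s, ∀ y ∈ s, x ≠ y → ∃ i < N.choose 2, i % 4 < 2 ∧ π i = s(x, y) := by
  have hβ1 : 1 < β := by rw [hβ]; linarith
  have hβα : β ≤ α := by rw [hβ]; linarith
  obtain ⟨k, hk⟩ := exists_k hα2
  have hev := (hk.and ((asy hβ1 hβα hc h k).and (asy_T hc k))).and
    (Filter.eventually_ge_atTop 4)
  obtain ⟨N₀, hN₀⟩ := Filter.eventually_atTop.1 hev
  refine ⟨N₀, fun N hN σ hσ => ?_⟩
  obtain ⟨⟨hk1, hasy, hT4⟩, hN4⟩ := hN₀ N hN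
  have : NeZero N := ⟨by omega⟩
  set T := Nat.log 2 N - k with hT
  set q := ⌊c * Real.logb 2 N⌋₊ + 1 with hq
  obtain ⟨π, h1, h2, h3, h4⟩ := play_exists (by omega) (fun i => 2 ≤ i % 4) σ hσ (valA q α T)
  refine ⟨π, h1, h2, h3, ?_⟩
  rintro ⟨A, hAq, hA⟩
  have hch : 4 ≤ N.choose 2 := by
    have h5 : Nat.choose 4 2 ≤ N.choose 2 := Nat.choose_le_choose 2 hN4
    have h6 : Nat.choose 4 2 = 6 := by decide
    omega
  have hcon := FinA_ineq hα.le hβ hα2.le hk1 hT4 hch π h1 h2 ?_ ?_ A hAq hA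
  · have h5 := hasy
    rw [mul_assoc] at h5
    exact absurd h5 (not_lt.2 hcon)
  · intro r hr e he hfree
    have h5 := h4 (4 * r) hr (by omega) e he hfree
    rw [valA_zero, valA_zero] at h5
    exact neg_le_neg_iff.1 h5
  · intro r hr e he hfree
    have h5 := h4 (4 * r + 1) hr (by omega) e he hfree
    rw [valA_one, valA_one] at h5
    exact neg_le_neg_iff.1 h5

end C0ce
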