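import Mathlib

/-! # The (2:2) clique achievement and avoidance numbers -/

set_option autoImplicit false

namespace C0ce

/-- The (2:2) Clique Achievement Number `A(N)`: the largest `q ≥ 2` such that Maker, who moves first,
has a strategy `σ` (a legal one: it answers with a free edge which is not a loop) so that in every
play `π` (all edges of `K_N` are taken, the moves `i` with `i % 4 < 2` belong to Maker) which
follows `σ` Maker owns a `K_q`. The set is the one in the frozen statement. -/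
noncomputable def achievement (N : ℕ) : ℕ :=
  sSup {q : ℕ | 2 ≤ q ∧ ∃ σ : List (Sym2 (Fin N)) → Sym2 (Fin N),
    (∀ l : List (Sym2 (Fin N)), l.Nodup → (∀ e ∈ l, ¬ Sym2.IsDiag e) →
        l.length < N.choose 2 → ¬ Sym2.IsDiag (σ l) ∧ σ l ∉ l) ∧
    ∀ π : ℕ → Sym2 (Fin N),
      (∀ i < N.choose 2, ¬ Sym2.IsDiag (π i)) →
      (∀ i < N.choose 2, ∀ j < N.choose 2, π i = π j → i = j) →
      (∀ i < N.choose 2, i % 4 < 2 → π i = σ ((List.range i).map π)) →
      ∃ s : Finset (Fin N), s.card = q ∧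
        ∀ x ∈ s, ∀ y ∈ s, x ≠ y →
          ∃ i < N.choose 2, i % 4 < 2 ∧ π i = s(x, y)}

/-- The (2:2) Clique Avoidance Number `V(N)`: the largest `q ≥ 2` such that Forcer has a strategy `σ`
so that in every play `π` (Avoider moves first and makes the moves `i` with `i % 4 < 2`, Forcer
those with `2 ≤ i % 4`) in which Forcer follows `σ` Avoider owns a `K_q` at the end. The set is the
one in the frozen statement. -/
noncomputable def avoidance (N : ℕ) : ℕ :=
  sSup {q : ℕ | 2 ≤ q ∧ ∃ σ : List (Sym2 (Fin N)) → Sym2 (Fin N),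
    (∀ l : List (Sym2 (Fin N)), l.Nodup → (∀ e ∈ l, ¬ Sym2.IsDiag e) →
        l.length < N.choose 2 → ¬ Sym2.IsDiag (σ l) ∧ σ l ∉ l) ∧
    ∀ π : ℕ → Sym2 (Fin N),
      (∀ i < N.choose 2, ¬ Sym2.IsDiag (π i)) →
      (∀ i < N.choose 2, ∀ j < N.choose 2, π i = π j → i = j) →
      (∀ i < N.choose 2, 2 ≤ i % 4 → π i = σ ((List.range i).map π)) →
      ∃ s : Finset (Fin N), s.card = q ∧
        ∀ x ∈ s, ∀ y ∈ s, x ≠ y →
          ∃ i < N.choose 2, i % 4 < 2 ∧ π i = s(x, y)}

end C0ce
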