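import Pool.Agent.W_c0ce05_h38.FinM
import Pool.Agent.W_c0ce05_h38.FinA
import Pool.Agent.W_c0ce05_h38.Numbers

/-! # The bounds for the achievement and the avoidance number -/

set_option autoImplicit false

namespace C0ce

open Filter Topology

theorem Fin_ex_alpha {g : ℝ → ℝ} (hg : ContinuousAt g 2) {x : ℝ} (hx : x < g 2) :
    ∃ a, 3 / 2 < a ∧ a < 2 ∧ x < g a := by
  have h1 : ∀ᶠ a in 𝓝[<] (2 : ℝ), x < g a :=
    (hg.eventually_const_lt hx).filter_mono nhdsWithin_le_nhds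
  have h2 : ∀ᶠ a in 𝓝[<] (2 : ℝ), a < 2 := self_mem_nhdsWithin
  have h3 : ∀ᶠ a in 𝓝[<] (2 : ℝ), 3 / 2 < a :=
    nhdsWithin_le_nhds (Ioi_mem_nhds (by norm_num))
  obtain ⟨a, h1, h2, h3⟩ := (h1.and (h2.and h3)).exists
  exact ⟨a, h3, h2, h1⟩

theorem Fin_logb_three : 84 / 53 ≤ Real.logb 2 3 := by
  have h1 : Real.logb 2 ((2 : ℝ) ^ 84) ≤ Real.logb 2 ((3 : ℝ) ^ 53) :=
    Real.logb_le_logb_of_le (by norm_num) (by norm_num) (by norm_num)
  rw [Real.logb_pow, Real.logb_pow, Real.logb_self_eq_one (by norm_num)] at h1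
  push_cast at h1
  linarith

theorem Fin_logb_three_lt : Real.logb 2 3 < 8 / 5 := by
  have h1 : Real.logb 2 ((3 : ℝ) ^ 5) < Real.logb 2 ((2 : ℝ) ^ 8) :=
    Real.logb_lt_logb (by norm_num) (by norm_num) (by norm_num)
  rw [Real.logb_pow, Real.logb_pow, Real.logb_self_eq_one (by norm_num)] at h1
  push_cast at h1
  linarith

theorem Fin_logb_three_half : Real.logb 2 (3 / 2) = Real.logb 2 3 - 1 := by
  rw [Real.logb_div (by norm_num) (by norm_num), Real.logb_self_eq_one (by norm_num)]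

theorem Fin_quad {b c : ℝ} (hb : 0 < b) (hb1 : b < 1)
    (hc : (1 + √(1 - b + b ^ 2)) / b < c) : 1 < c ∧ 2 * c < c ^ 2 * b + (1 - b) := by
  have h0 : 0 ≤ √(1 - b + b ^ 2) := Real.sqrt_nonneg _
  have h1 : √(1 - b + b ^ 2) ^ 2 = 1 - b + b ^ 2 := Real.sq_sqrt (by nlinarith)
  rw [div_lt_iff₀ hb] at hc
  have h2 : 0 < c := by
    by_contra hcon
    have h3 : c * b ≤ 0 := mul_nonpos_of_nonpos_of_nonneg (not_lt.1 hcon) hb.le
    linarith
  refine ⟨by nlinarith, ?_⟩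
  have h3 : √(1 - b + b ^ 2) ^ 2 < (c * b - 1) ^ 2 := by
    refine pow_lt_pow_left₀ (by linarith) h0 (by norm_num)
  rw [h1] at h3
  have h4 : 0 < b * (c ^ 2 * b + (1 - b) - 2 * c) := by nlinarith
  have h5 := (mul_pos_iff_of_pos_left hb).1 h4
  linarith

theorem Fin_quad_lt {b c : ℝ} (hb : 0 < b) (hcb : 1 < c * b)
    (h : 2 * c < c ^ 2 * b + (1 - b)) : (1 + √(1 - b + b ^ 2)) / b < c := by
  rw [div_lt_iff₀ hb]
  have h1 : √(1 - b + b ^ 2) < c * b - 1 := by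
    rw [Real.sqrt_lt' (by linarith)]
    nlinarith
  linarith

/-- `A(N) ≤ c log₂ N` for large `N`. -/
theorem achievement_le {c : ℝ} (hc : 1 < c)
    (h : 2 * c < c ^ 2 * (Real.logb 2 3 / 2) + (1 - Real.logb 2 3 / 2)) :
    ∃ N₀ : ℕ, ∀ N : ℕ, N₀ ≤ N → (achievement N : ℝ) ≤ c * Real.logb 2 N := by
  let g : ℝ → ℝ := fun a => c ^ 2 * Real.logb 2 (√(2 * a - 1)) +
    (Real.logb 2 a - Real.logb 2 (√(2 * a - 1)))
  have hs : ContinuousAt (fun a : ℝ => √(2 * a - 1)) 2 := by fun_prop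
  have hs2 : ContinuousAt (fun a : ℝ => Real.logb 2 (√(2 * a - 1))) 2 := by
    refine hs.logb ?_
    exact (Real.sqrt_pos.2 (by norm_num)).ne'
  have hg : ContinuousAt g 2 := by
    refine (continuousAt_const.mul hs2).add (ContinuousAt.sub ?_ hs2)
    exact continuousAt_id.logb (by norm_num)
  have hg2 : g 2 = c ^ 2 * (Real.logb 2 3 / 2) + (1 - Real.logb 2 3 / 2) := by
    have h1 : (2 : ℝ) * 2 - 1 = 3 := by norm_num
    have h2 : Real.logb 2 (√3) = Real.logb 2 3 / 2 := by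
      unfold Real.logb
      rw [Real.log_sqrt (by norm_num)]
      ring
    simp only [g]
    rw [h1, h2, Real.logb_self_eq_one (by norm_num)]
  obtain ⟨α, hα1, hα2, hα⟩ := Fin_ex_alpha hg (x := 2 * c) (by rw [hg2]; exact h)
  have hsq : √(2 * α - 1) ^ 2 = 2 * α - 1 := Real.sq_sqrt (by linarith)
  have hβ1 : 1 < √(2 * α - 1) := by
    rw [Real.lt_sqrt (by norm_num)]
    linarith
  have hβα : √(2 * α - 1) ≤ α := by
    rw [Real.sqrt_le_left (by linarith)]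
    nlinarith [sq_nonneg (α - 1)]
  obtain ⟨N₀, hN₀⟩ := finM hβ1 hβα hsq hα2 hc hα
  refine ⟨max N₀ 1, fun N hN => ?_⟩
  have hL : 0 ≤ c * Real.logb 2 N := by
    refine mul_nonneg (by linarith) (Real.logb_nonneg (by norm_num) ?_)
    exact_mod_cast (le_max_right _ _).trans hN
  refine le_trans ?_ (Nat.floor_le hL)
  refine Nat.cast_le.2 (csSup_le' ?_)
  rintro q ⟨-, σ, hσ, hwin⟩
  by_contra hq
  obtain ⟨π, h1, h2, h3, h4⟩ := hN₀ N ((le_max_left _ _).trans hN) σ hσ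
  obtain ⟨s, hs, hs2⟩ := hwin π h1 h2 h3
  obtain ⟨t, hts, ht⟩ := Finset.exists_subset_card_eq
    (show ⌊c * Real.logb 2 N⌋₊ + 1 ≤ s.card by omega)
  exact h4 ⟨t, ht, fun x hx y hy hxy => hs2 x (hts hx) y (hts hy) hxy⟩

/-- `V(N) ≤ c log₂ N` for large `N`. -/
theorem avoidance_le {c : ℝ} (hc : 1 < c)
    (h : 2 * c < c ^ 2 * Real.logb 2 (3 / 2) + (1 - Real.logb 2 (3 / 2))) :
    ∃ N₀ : ℕ, ∀ N : ℕ, N₀ ≤ N → (avoidance N : ℝ) ≤ c * Real.logb 2 N := by
  let g : ℝ → ℝ := fun a => c ^ 2 * Real.logb 2 (a - 1 / 2) +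
    (Real.logb 2 a - Real.logb 2 (a - 1 / 2))
  have hs : ContinuousAt (fun a : ℝ => a - 1 / 2) 2 := by fun_prop
  have hs2 : ContinuousAt (fun a : ℝ => Real.logb 2 (a - 1 / 2)) 2 := by
    refine hs.logb ?_
    norm_num
  have hg : ContinuousAt g 2 := by
    refine (continuousAt_const.mul hs2).add (ContinuousAt.sub ?_ hs2)
    exact continuousAt_id.logb (by norm_num)
  have hg2 : g 2 = c ^ 2 * Real.logb 2 (3 / 2) + (1 - Real.logb 2 (3 / 2)) := by
    have h1 : (2 : ℝ) - 1 / 2 = 3 / 2 := by norm_num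
    simp only [g]
    rw [h1, Real.logb_self_eq_one (by norm_num)]
  obtain ⟨α, hα1, hα2, hα⟩ := Fin_ex_alpha hg (x := 2 * c) (by rw [hg2]; exact h)
  obtain ⟨N₀, hN₀⟩ := finA hα1 rfl hα2 hc hα
  refine ⟨max N₀ 1, fun N hN => ?_⟩
  have hL : 0 ≤ c * Real.logb 2 N := by
    refine mul_nonneg (by linarith) (Real.logb_nonneg (by norm_num) ?_)
    exact_mod_cast (le_max_right _ _).trans hN
  refine le_trans ?_ (Nat.floor_le hL)
  refine Nat.cast_le.2 (csSup_le' ?_)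
  rintro q ⟨-, σ, hσ, hwin⟩
  by_contra hq
  obtain ⟨π, h1, h2, h3, h4⟩ := hN₀ N ((le_max_left _ _).trans hN) σ hσ
  obtain ⟨s, hs, hs2⟩ := hwin π h1 h2 h3
  obtain ⟨t, hts, ht⟩ := Finset.exists_subset_card_eq
    (show ⌊c * Real.logb 2 N⌋₊ + 1 ≤ s.card by omega)
  exact h4 ⟨t, ht, fun x hx y hy hxy => hs2 x (hts hx) y (hts hy) hxy⟩

/-- the constant for the achievement number is less than `2.416` -/
theorem Fin_cA : (1 + √(1 - Real.logb 2 3 / 2 + (Real.logb 2 3 / 2) ^ 2)) /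
    (Real.logb 2 3 / 2) < 2.416 := by
  have h1 := Fin_logb_three
  refine Fin_quad_lt (by linarith) (by linarith) ?_
  norm_num
  linarith

/-- the constant for the avoidance number is less than `3.198` -/
theorem Fin_cV : (1 + √(1 - Real.logb 2 (3 / 2) + Real.logb 2 (3 / 2) ^ 2)) /
    Real.logb 2 (3 / 2) < 3.198 := by
  have h1 := Fin_logb_three
  have h2 := Fin_logb_three_half
  refine Fin_quad_lt (by linarith) (by linarith) ?_
  norm_num
  linarith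

end C0ce
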