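import Pool.Agent.W_c0ce05_h38.InvM

/-! # Maker-Breaker: lower bound of the weight of a set without edges of Breaker -/

set_option autoImplicit false

namespace C0ce

open scoped Classical

variable {N : ℕ}

theorem ProdM_card (Q : ℕ → Prop) [DecidablePred Q] (h : ∀ i, Q i → i % 4 < 2) (R : ℕ) :
    ((Finset.range (4 * (R + 1))).filter Q).card = ((Finset.range (4 * R)).filter Q).card +
      (if Q (4 * R) then 1 else 0) + (if Q (4 * R + 1) then 1 else 0) := by
  have h4 : 4 * (R + 1) = 4 * R + 1 + 1 + 1 + 1 := by ring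
  have h2 : ¬ Q (4 * R + 1 + 1) := fun hq => by
    have := h _ hq
    omega
  have h3 : ¬ Q (4 * R + 1 + 1 + 1) := fun hq => by
    have := h _ hq
    omega
  rw [Finset.card_filter, Finset.card_filter, h4, Finset.sum_range_succ, Finset.sum_range_succ,
    Finset.sum_range_succ, Finset.sum_range_succ, if_neg h2, if_neg h3, add_zero, add_zero]

/-- TASK. `4 (R+1) = 4 R + 4`; of the new indices only `4 R` and `4 R + 1` satisfy `i % 4 < 2`, and
`4 R / 4 = (4 R + 1) / 4 = R`. -/
theorem card_Kset_succ (π : ℕ → Sym2 (Fin N)) (R : ℕ) (A : Finset (Fin N)) :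
    (Kset π (R + 1) A).card = (Kset π R A).card + (if inB (π (4 * R)) A then 1 else 0) +
      (if inB (π (4 * R + 1)) A then 1 else 0) := by
  unfold Kset
  rw [ProdM_card _ (fun i hi => hi.1)]
  congr 1
  · congr 1
    exact if_congr ⟨fun h => h.2, fun h => ⟨by omega, h⟩⟩ rfl rfl
  · exact if_congr ⟨fun h => h.2, fun h => ⟨by omega, h⟩⟩ rfl rfl

/-- TASK. Like `card_Kset_succ`. -/
theorem card_Hset_succ (T : ℕ) (π : ℕ → Sym2 (Fin N)) (R : ℕ) (A : Finset (Fin N)) :
    (Hset T π (R + 1) A).card = (Hset T π R A).card +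
      (if inB (π (4 * R)) A ∧ low T π R (π (4 * R)) A then 1 else 0) +
      (if inB (π (4 * R + 1)) A ∧ low T π R (π (4 * R + 1)) A then 1 else 0) := by
  have e0 : 4 * R / 4 = R := by omega
  have e1 : (4 * R + 1) / 4 = R := by omega
  unfold Hset
  rw [ProdM_card _ (fun i hi => hi.1)]
  congr 1
  · congr 1
    refine if_congr ?_ rfl rfl
    rw [e0]
    exact ⟨fun h => h.2, fun h => ⟨by omega, h⟩⟩
  · refine if_congr ?_ rfl rfl
    rw [e1]
    exact ⟨fun h => h.2, fun h => ⟨by omega, h⟩⟩

theorem ProdM_exists {e f : Sym2 (Fin N)} (he : ¬ Sym2.IsDiag e) (hne : e ≠ f) :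
    ∃ v, v ∈ e ∧ v ∉ f := by
  by_contra hcon
  push Not at hcon
  induction e using Sym2.ind with
  | _ x y =>
    rw [Sym2.mk_isDiag_iff] at he
    have h1 := hcon x (Sym2.mem_mk_left x y)
    have h2 := hcon y (Sym2.mem_mk_right x y)
    exact hne ((Sym2.mem_and_mem_iff he).1 ⟨h1, h2⟩).symm

theorem ProdM_num {α β : ℝ} (hβ1 : 1 ≤ β) (hβα : β ≤ α) (hβ : β ^ 2 = 2 * α - 1)
    (a b la lb c : Prop) (h1 : a → b → la → c) (h2 : a → b → lb → c) :
    (α / β) ^ ((if a ∧ la then 1 else 0) + (if b ∧ lb then 1 else 0)) *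
    β ^ ((if a then 1 else 0) + (if b then 1 else 0)) ≤
      if a ∧ b then (if c then α ^ 2 else 2 * α - 1) else if a ∨ b then α else 1 := by
  have hβ0 : 0 < β := by linarith
  have hr : 1 ≤ α / β := (one_le_div hβ0).2 hβα
  have hrβ : α / β * β = α := div_mul_cancel₀ _ hβ0.ne'
  by_cases ha : a
  · by_cases hb : b
    · simp only [ha, hb, true_and, if_true]
      by_cases hc : c
      · rw [if_pos hc]
        have h3 : ∀ m : ℕ, m ≤ 2 → (α / β) ^ m * β ^ (1 + 1) ≤ α ^ 2 := by
          intro m hm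
          calc (α / β) ^ m * β ^ (1 + 1) ≤ (α / β) ^ 2 * β ^ (1 + 1) :=
                mul_le_mul_of_nonneg_right (pow_le_pow_right₀ hr hm) (by positivity)
            _ = (α / β * β) ^ 2 := by ring
            _ = α ^ 2 := by rw [hrβ]
        apply h3
        split_ifs <;> omega
      · rw [if_neg hc]
        have hla : ¬ la := fun h => hc (h1 ha hb h)
        have hlb : ¬ lb := fun h => hc (h2 ha hb h)
        rw [if_neg hla, if_neg hlb, ← hβ]
        norm_num
    · simp only [ha, hb, true_and, false_and, and_false, if_true, if_false, add_zero, true_or,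
        pow_one]
      by_cases hl : la
      · rw [if_pos hl, pow_one, hrβ]
      · rw [if_neg hl, pow_zero, one_mul]
        exact hβα
  · by_cases hb : b
    · simp only [ha, hb, true_and, false_and, and_false, if_true, if_false, zero_add, or_true,
        pow_one]
      by_cases hl : lb
      · rw [if_pos hl, pow_one, hrβ]
      · rw [if_neg hl, pow_zero, one_mul]
        exact hβα
    · simp only [ha, hb, false_and, if_false, add_zero, or_false, pow_zero, mul_one]
      exact le_rfl

theorem ProdM_fac {α β : ℝ} (hβ1 : 1 ≤ β) (hβα : β ≤ α) (hβ : β ^ 2 = 2 * α - 1) (T : ℕ)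
    (π : ℕ → Sym2 (Fin N)) (R : ℕ) (A : Finset (Fin N)) (h0 : ¬ Sym2.IsDiag (π (4 * R)))
    (h1 : ¬ Sym2.IsDiag (π (4 * R + 1))) (hne : π (4 * R) ≠ π (4 * R + 1)) :
    (α / β) ^ ((if inB (π (4 * R)) A ∧ low T π R (π (4 * R)) A then 1 else 0) +
      (if inB (π (4 * R + 1)) A ∧ low T π R (π (4 * R + 1)) A then 1 else 0)) *
    β ^ ((if inB (π (4 * R)) A then 1 else 0) + (if inB (π (4 * R + 1)) A then 1 else 0)) ≤
      fac α T π R A := by
  refine ProdM_num hβ1 hβα hβ _ _ _ _ _ ?_ ?_
  · intro _ _ hl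
    obtain ⟨v, hv1, hv2⟩ := ProdM_exists h0 hne
    exact ⟨v, Or.inl ⟨hv1, hv2⟩, hl v hv1⟩
  · intro _ _ hl
    obtain ⟨v, hv1, hv2⟩ := ProdM_exists h1 hne.symm
    exact ⟨v, Or.inr ⟨hv1, hv2⟩, hl v hv1⟩

/-- TASK. Induction on `R` with `card_Kset_succ`, `card_Hset_succ` (write
`K - H = K.card - H.card` as a natural number, `H.card ≤ K.card` by `Hset ⊆ Kset`; perhaps easier:
prove the form `(α / β) ^ H.card * β ^ K.card ≤ wt`). The factor of round `R` is at least
`α ^ h * β ^ (k - h)`, where `k` is the number of the two edges inside `A` and `h` the number of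
those which are `low`: if both edges lie in `A` and the round is not `cheap`, then `h = 0`: there
is a vertex of the first edge which is not in the second and conversely (both are not loops and
different), and `low` for one edge would give `cheap`. Use `β ^ 2 = 2 α - 1`, `1 ≤ β ≤ α`. -/
theorem wt_ge {α β : ℝ} (hβ1 : 1 ≤ β) (hβα : β ≤ α) (hβ : β ^ 2 = 2 * α - 1) (T : ℕ)
    (π : ℕ → Sym2 (Fin N)) (R : ℕ) (A : Finset (Fin N))
    (hdiag : ∀ i < 4 * R, ¬ Sym2.IsDiag (π i))
    (hinj : ∀ i < 4 * R, ∀ j < 4 * R, π i = π j → i = j)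
    (hA : ∀ i < 4 * R, 2 ≤ i % 4 → ¬ inB (π i) A) :
    (α / β) ^ (Hset T π R A).card * β ^ (Kset π R A).card ≤ wt α T π R A := by
  induction R with
  | zero =>
    have e1 : (Hset T π 0 A) = ∅ := by
      unfold Hset
      simp
    have e2 : (Kset π 0 A) = ∅ := by
      unfold Kset
      simp
    rw [e1, e2]
    simp [wt]
  | succ R ih =>
    have ih' := ih (fun i hi => hdiag i (by omega))
      (fun i hi j hj => hinj i (by omega) j (by omega)) (fun i hi => hA i (by omega))
    have h2 : ¬ inB (π (4 * R + 2)) A := hA _ (by omega) (by omega)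
    have h3 : ¬ inB (π (4 * R + 3)) A := hA _ (by omega) (by omega)
    have hw : wt α T π (R + 1) A = wt α T π R A * fac α T π R A := by
      change kill (kill (fun B => wt α T π R B * fac α T π R B) (π (4 * R + 2)))
        (π (4 * R + 3)) A = _
      unfold kill
      rw [if_neg h3, if_neg h2]
    have hf := ProdM_fac hβ1 hβα hβ T π R A (hdiag _ (by omega)) (hdiag _ (by omega))
      (fun h => by
        have := hinj _ (by omega) _ (by omega) h
        omega)
    have hβ0 : 0 < β := by linarith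
    have hα0 : 0 < α := by linarith
    rw [hw, card_Hset_succ, card_Kset_succ, add_assoc, add_assoc, pow_add, pow_add]
    have h5 : (0 : ℝ) ≤ (α / β) ^ (Hset T π R A).card * β ^ (Kset π R A).card := by positivity
    refine le_trans (le_of_eq ?_) (mul_le_mul ih' hf (by positivity) (h5.trans ih'))
    ring

end C0ce
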