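import Pool.Agent.W_c0ce05_h38.Pot

/-! # Maker-Breaker: the invariant of the weights -/

set_option autoImplicit false

namespace C0ce

open scoped Classical

variable {N : ℕ}

/-- TASK. `4 (r+1) = 4 r + 4`; of the new indices only `4 r` and `4 r + 1` satisfy `i % 4 < 2`. -/
theorem dg_succ (π : ℕ → Sym2 (Fin N)) (r : ℕ) (v : Fin N) (B : Finset (Fin N)) :
    dg π (r + 1) v B = dg π r v B + (if v ∈ π (4 * r) ∧ inB (π (4 * r)) B then 1 else 0) +
      (if v ∈ π (4 * r + 1) ∧ inB (π (4 * r + 1)) B then 1 else 0) := by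
  unfold dg
  rw [Finset.card_filter, Finset.card_filter, show 4 * (r + 1) = 4 * r + 1 + 1 + 1 + 1 by ring,
    Finset.sum_range_succ, Finset.sum_range_succ, Finset.sum_range_succ, Finset.sum_range_succ]
  have h0 : (4 * r) % 4 < 2 := by omega
  have h1 : (4 * r + 1) % 4 < 2 := by omega
  have h2 : ¬ (4 * r + 1 + 1) % 4 < 2 := by omega
  have h3 : ¬ (4 * r + 1 + 1 + 1) % 4 < 2 := by omega
  simp only [h0, h1, h2, h3, true_and, false_and, if_false, add_zero]

/-- TASK. Case distinction. -/
theorem one_le_fac {α : ℝ} (hα : 1 ≤ α) (T : ℕ) (π : ℕ → Sym2 (Fin N)) (r : ℕ)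
    (B : Finset (Fin N)) : 1 ≤ fac α T π r B := by
  unfold fac
  split_ifs
  · nlinarith
  · linarith
  · exact hα
  · exact le_rfl

/-- TASK. Induction on `r`, `one_le_fac`. -/
theorem wt_nonneg {α : ℝ} (hα : 1 ≤ α) (T : ℕ) (π : ℕ → Sym2 (Fin N)) (r : ℕ)
    (B : Finset (Fin N)) : 0 ≤ wt α T π r B := by
  induction r generalizing B with
  | zero => simp only [wt, zero_le_one]
  | succ r ih =>
    simp only [wt]
    refine kill_nonneg (fun B => kill_nonneg (fun B => ?_) _ _) _ _
    exact mul_nonneg (ih B) (zero_le_one.trans (one_le_fac hα T π r B))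

/-- TASK. Case distinction on which of the two edges lie in `B` and which contain `v`
(`inB_erase`). If both lie in `B` and none contains `v`: `cheap` for `B` implies `cheap` for
`B.erase v` (`dg_mono`, `Finset.erase_subset`), and `2 α - 1 ≤ α ^ 2`. If both lie in `B` and exactly
one contains `v` the claim is (at most) `α ^ 2 ≤ 2 α`, if both contain `v` it is `α ^ 2 ≤ 4`. If only
one lies in `B`: `α ≤ α` or `α ≤ 2`. -/
theorem fac_erase {α : ℝ} (hα : 1 ≤ α) (hα2 : α ≤ 2) (T : ℕ) (π : ℕ → Sym2 (Fin N)) (r : ℕ)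
    (v : Fin N) (B : Finset (Fin N)) :
    fac α T π r B ≤ 2 ^ ((if v ∈ π (4 * r) ∧ inB (π (4 * r)) B then 1 else 0) +
      (if v ∈ π (4 * r + 1) ∧ inB (π (4 * r + 1)) B then 1 else 0)) * fac α T π r (B.erase v) := by
  have hch : cheap T π r (π (4 * r)) (π (4 * r + 1)) B →
      cheap T π r (π (4 * r)) (π (4 * r + 1)) (B.erase v) := by
    rintro ⟨u, hu, hd⟩
    exact ⟨u, hu, (dg_mono (Finset.erase_subset _ _)).trans hd⟩
  have hsq : 2 * α - 1 ≤ α ^ 2 := by nlinarith [sq_nonneg (α - 1)]
  have hsq2 : α ^ 2 ≤ 2 * α := by nlinarith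
  have hsq4 : α ^ 2 ≤ 4 := by nlinarith
  unfold fac
  simp only [inB_erase]
  by_cases p1 : inB (π (4 * r)) B <;> by_cases p2 : inB (π (4 * r + 1)) B <;>
    by_cases v1 : v ∈ π (4 * r) <;> by_cases v2 : v ∈ π (4 * r + 1) <;>
    simp only [p1, p2, v1, v2, and_true, and_false, and_self, not_true,
      not_false_iff, if_true, if_false, or_true, or_false, or_self,
      pow_zero, one_mul, mul_one, zero_add, add_zero, pow_one, le_refl]
  all_goals
    by_cases c1 : cheap T π r (π (4 * r)) (π (4 * r + 1)) B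
    · have c2 := hch c1
      try simp only [c1, c2, if_true, le_refl]
      try norm_num
      try nlinarith
    · by_cases c2 : cheap T π r (π (4 * r)) (π (4 * r + 1)) (B.erase v)
      · try simp only [c1, c2, if_true, if_false, le_refl]
        try norm_num
        try nlinarith
      · try simp only [c1, c2, if_false, le_refl]
        try norm_num
        try nlinarith

/-- TASK. Induction on `r`, for all `B`, with `dg_succ` and `fac_erase`. If an edge of the second
player of round `r` lies in `B` the left side is `0`; otherwise none lies in `B.erase v`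
(`inB_mono`). -/
theorem inv_wt {α : ℝ} (hα : 1 ≤ α) (hα2 : α ≤ 2) (T : ℕ) (π : ℕ → Sym2 (Fin N)) (r : ℕ)
    (B : Finset (Fin N)) (v : Fin N) :
    wt α T π r B ≤ 2 ^ dg π r v B * wt α T π r (B.erase v) := by
  induction r generalizing B with
  | zero =>
    simp only [wt, mul_one]
    exact one_le_pow₀ (by norm_num)
  | succ r ih =>
    have hnn : 0 ≤ (2 : ℝ) ^ dg π (r + 1) v B * wt α T π (r + 1) (B.erase v) :=
      mul_nonneg (by positivity) (wt_nonneg hα T π (r + 1) _)
    by_cases h4 : inB (π (4 * r + 3)) B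
    · refine le_trans (le_of_eq ?_) hnn
      simp only [wt, kill, h4, if_true]
    by_cases h3 : inB (π (4 * r + 2)) B
    · refine le_trans (le_of_eq ?_) hnn
      simp only [wt, kill, h4, h3, if_true, if_false]
    have h4' : ¬ inB (π (4 * r + 3)) (B.erase v) := fun h => h4 (inB_mono (Finset.erase_subset _ _) h)
    have h3' : ¬ inB (π (4 * r + 2)) (B.erase v) := fun h => h3 (inB_mono (Finset.erase_subset _ _) h)
    simp only [wt, kill, h4, h3, h4', h3', if_false]
    have hf := fac_erase hα hα2 T π r v B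
    have hw := wt_nonneg hα T π r (B.erase v)
    have hf0 : 0 ≤ fac α T π r B := zero_le_one.trans (one_le_fac hα T π r B)
    rw [dg_succ, add_assoc, pow_add]
    calc wt α T π r B * fac α T π r B
        ≤ (2 ^ dg π r v B * wt α T π r (B.erase v)) * fac α T π r B :=
          mul_le_mul_of_nonneg_right (ih B) hf0
      _ ≤ (2 ^ dg π r v B * wt α T π r (B.erase v)) *
          (2 ^ ((if v ∈ π (4 * r) ∧ inB (π (4 * r)) B then 1 else 0) +
      (if v ∈ π (4 * r + 1) ∧ inB (π (4 * r + 1)) B then 1 else 0)) *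
            fac α T π r (B.erase v)) :=
          mul_le_mul_of_nonneg_left hf (mul_nonneg (by positivity) hw)
      _ = _ := by ring

end C0ce
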