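import Pool.Agent.W_c0ce05_h38.Charge
import Pool.Agent.W_c0ce05_h38.InvM

/-! # Maker-Breaker: the potential does not increase -/

set_option autoImplicit false

namespace C0ce

open scoped Classical

variable {N q : ℕ}

/-- TASK. Pointwise `fac B = 1 + (α - 1) [inB e1 B] + (α - 1) [inB e2 B] +
(α - 1) ^ 2 [both and cheap]`, multiply with `cf q B * f B` and sum (`Finset.sum_filter`). -/
theorem pot_fac (α : ℝ) (T : ℕ) (π : ℕ → Sym2 (Fin N)) (r : ℕ) (f : Finset (Fin N) → ℝ) :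
    pot q (fun B => f B * fac α T π r B) = pot q f + (α - 1) * P q f (π (4 * r)) +
      (α - 1) * P q f (π (4 * r + 1)) + (α - 1) ^ 2 *
      ∑ B ∈ (Fam N q).filter (fun B => inB (π (4 * r)) B ∧ inB (π (4 * r + 1)) B ∧
        cheap T π r (π (4 * r)) (π (4 * r + 1)) B), cf q B * f B := by
  have hpt : ∀ B ∈ Fam N q, cf q B * (f B * fac α T π r B) = cf q B * f B +
      (α - 1) * (if inB (π (4 * r)) B then cf q B * f B else 0) +
      (α - 1) * (if inB (π (4 * r + 1)) B then cf q B * f B else 0) +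
      (α - 1) ^ 2 * (if (inB (π (4 * r)) B ∧ inB (π (4 * r + 1)) B ∧
        cheap T π r (π (4 * r)) (π (4 * r + 1)) B) then cf q B * f B else 0) := by
    intro B _
    unfold fac
    by_cases h1 : inB (π (4 * r)) B
    · by_cases h2 : inB (π (4 * r + 1)) B
      · by_cases h3 : cheap T π r (π (4 * r)) (π (4 * r + 1)) B
        · rw [if_pos ⟨h1, h2⟩, if_pos h3, if_pos h1, if_pos h2, if_pos ⟨h1, h2, h3⟩]
          ring
        · rw [if_pos ⟨h1, h2⟩, if_neg h3, if_pos h1, if_pos h2, if_neg (fun h => h3 h.2.2)]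
          ring
      · rw [if_neg (fun h => h2 h.2), if_pos (Or.inl h1), if_pos h1, if_neg h2,
          if_neg (fun h => h2 h.2.1)]
        ring
    · by_cases h2 : inB (π (4 * r + 1)) B
      · rw [if_neg (fun h => h1 h.1), if_pos (Or.inr h2), if_neg h1, if_pos h2,
          if_neg (fun h => h1 h.1)]
        ring
      · rw [if_neg (fun h => h1 h.1), if_neg (fun h => h.elim h1 h2), if_neg h1, if_neg h2,
          if_neg (fun h => h1 h.1)]
        ring
  unfold pot P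
  rw [Finset.sum_congr rfl hpt, Finset.sum_add_distrib, Finset.sum_add_distrib,
    Finset.sum_add_distrib, ← Finset.mul_sum, ← Finset.mul_sum, ← Finset.mul_sum,
    Finset.sum_filter, Finset.sum_filter, Finset.sum_filter]

/-- TASK. Let `g = mw α T π r`, `f1 = π (4 r + 2)`, `f2 = π (4 r + 3)`, `g1 = kill g f1`,
`g2 = kill g1 f2 = wt α T π (r + 1)` and `M = P q g1 f2`. By `pot_kill`:
`pot q g2 = pot q g - P q g f1 - P q g1 f2 ≤ pot q g - 2 M`, because
`P q g f1 ≥ P q g f2 ≥ P q g1 f2` (`h1`, `P_mono`, `kill_le`). By `pot_fac` with `f = g2`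
(`e1 = π (4 (r+1))`, `e2 = π (4 (r+1) + 1)`), `P q g2 ei ≤ P q g1 ei ≤ M` and `pair_bound` for
`g2` with `K = 2 ^ T` (from `inv_wt` for `r + 1`, monotonicity of `2 ^ _`), the pair sum is at most
`4 * (2 ^ T / N) * M ≤ 2 * (2 - α) * M` by `hT`, and `(α - 1) ^ 2 ≤ 1`. Sum up. -/
theorem step_M {α : ℝ} (hα : 1 ≤ α) (hα2 : α ≤ 2) {T : ℕ} (hN : 1 ≤ N)
    (hT : (2 : ℝ) ^ (T + 1) ≤ N * (2 - α)) (π : ℕ → Sym2 (Fin N)) (r : ℕ)
    (h1 : P q (mw α T π r) (π (4 * r + 3)) ≤ P q (mw α T π r) (π (4 * r + 2)))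
    (h2 : P q (kill (mw α T π r) (π (4 * r + 2))) (π (4 * (r + 1))) ≤
      P q (kill (mw α T π r) (π (4 * r + 2))) (π (4 * r + 3)))
    (h3 : P q (kill (mw α T π r) (π (4 * r + 2))) (π (4 * (r + 1) + 1)) ≤
      P q (kill (mw α T π r) (π (4 * r + 2))) (π (4 * r + 3))) :
    pot q (mw α T π (r + 1)) ≤ pot q (mw α T π r) := by
  have hg : ∀ B, 0 ≤ mw α T π r B := fun B =>
    mul_nonneg (wt_nonneg hα T π r B) (zero_le_one.trans (one_le_fac hα T π r B))
  have hg1 : ∀ B, 0 ≤ kill (mw α T π r) (π (4 * r + 2)) B := kill_nonneg hg _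
  have hg2 : ∀ B, 0 ≤ kill (kill (mw α T π r) (π (4 * r + 2))) (π (4 * r + 3)) B :=
    kill_nonneg hg1 _
  have hwt : ∀ B, wt α T π (r + 1) B =
      kill (kill (mw α T π r) (π (4 * r + 2))) (π (4 * r + 3)) B := fun B => rfl
  have e0 : pot q (mw α T π (r + 1)) = pot q (fun B =>
      kill (kill (mw α T π r) (π (4 * r + 2))) (π (4 * r + 3)) B * fac α T π (r + 1) B) := rfl
  have e1 := pot_fac (q := q) α T π (r + 1)
    (kill (kill (mw α T π r) (π (4 * r + 2))) (π (4 * r + 3)))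
  have e2 := pot_kill (q := q) (kill (mw α T π r) (π (4 * r + 2))) (π (4 * r + 3))
  have e3 := pot_kill (q := q) (mw α T π r) (π (4 * r + 2))
  have m1 : P q (kill (mw α T π r) (π (4 * r + 2))) (π (4 * r + 3)) ≤
      P q (mw α T π r) (π (4 * r + 3)) := P_mono (kill_le hg _) _
  have m2 : P q (kill (kill (mw α T π r) (π (4 * r + 2))) (π (4 * r + 3))) (π (4 * (r + 1))) ≤
      P q (kill (mw α T π r) (π (4 * r + 2))) (π (4 * (r + 1))) := P_mono (kill_le hg1 _) _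
  have m3 : P q (kill (kill (mw α T π r) (π (4 * r + 2))) (π (4 * r + 3)))
      (π (4 * (r + 1) + 1)) ≤
      P q (kill (mw α T π r) (π (4 * r + 2))) (π (4 * (r + 1) + 1)) := P_mono (kill_le hg1 _) _
  have hinv : ∀ (B : Finset (Fin N)) (v : Fin N), v ∈ B → dg π (r + 1) v B ≤ T →
      kill (kill (mw α T π r) (π (4 * r + 2))) (π (4 * r + 3)) B ≤
        (2 : ℝ) ^ T * kill (kill (mw α T π r) (π (4 * r + 2))) (π (4 * r + 3)) (B.erase v) := by
    intro B v _ hd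
    have h5 := inv_wt hα hα2 T π (r + 1) B v
    rw [hwt B, hwt (B.erase v)] at h5
    refine h5.trans (mul_le_mul_of_nonneg_right ?_ (hg2 _))
    exact pow_le_pow_right₀ (by norm_num) hd
  have hpair := pair_bound (q := q) hN hg2 (K := (2 : ℝ) ^ T) (by positivity) hinv
    (π (4 * (r + 1))) (π (4 * (r + 1) + 1))
  have hM : 0 ≤ P q (kill (mw α T π r) (π (4 * r + 2))) (π (4 * r + 3)) := P_nonneg hg1 _
  have hNpos : (0 : ℝ) < N := by exact_mod_cast hN
  have hKN : 2 * ((2 : ℝ) ^ T / N) ≤ 2 - α := by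
    rw [← mul_div_assoc, div_le_iff₀ hNpos]
    calc 2 * (2 : ℝ) ^ T = 2 ^ (T + 1) := by rw [pow_succ]; ring
      _ ≤ N * (2 - α) := hT
      _ = (2 - α) * N := mul_comm _ _
  have hKN0 : 0 ≤ (2 : ℝ) ^ T / N := by positivity
  rw [e0, e1, e2, e3]
  set M := P q (kill (mw α T π r) (π (4 * r + 2))) (π (4 * r + 3)) with hMdef
  set p1 := P q (kill (kill (mw α T π r) (π (4 * r + 2))) (π (4 * r + 3))) (π (4 * (r + 1)))
    with hp1
  set p2 := P q (kill (kill (mw α T π r) (π (4 * r + 2))) (π (4 * r + 3)))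
    (π (4 * (r + 1) + 1)) with hp2
  set S := ∑ B ∈ (Fam N q).filter (fun B => inB (π (4 * (r + 1))) B ∧
    inB (π (4 * (r + 1) + 1)) B ∧
    cheap T π (r + 1) (π (4 * (r + 1))) (π (4 * (r + 1) + 1)) B),
    cf q B * kill (kill (mw α T π r) (π (4 * r + 2))) (π (4 * r + 3)) B with hS
  have hp1M : p1 ≤ M := m2.trans h2
  have hp2M : p2 ≤ M := m3.trans h3
  have hfM : M ≤ P q (mw α T π r) (π (4 * r + 2)) := m1.trans h1
  have hS1 : S ≤ 2 * ((2 : ℝ) ^ T / N) * (p1 + p2) := hpair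
  have hS2 : S ≤ (2 - α) * (2 * M) := by
    refine hS1.trans ?_
    calc 2 * ((2 : ℝ) ^ T / N) * (p1 + p2) ≤ 2 * ((2 : ℝ) ^ T / N) * (2 * M) :=
          mul_le_mul_of_nonneg_left (by linarith) (by positivity)
      _ ≤ (2 - α) * (2 * M) := mul_le_mul_of_nonneg_right hKN (by linarith)
  have hα1 : 0 ≤ α - 1 := by linarith
  have hsq : (α - 1) ^ 2 ≤ 1 := by nlinarith
  have hS3 : (α - 1) ^ 2 * S ≤ (2 - α) * (2 * M) := by
    have h6 : (α - 1) ^ 2 * S ≤ (α - 1) ^ 2 * ((2 - α) * (2 * M)) :=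
      mul_le_mul_of_nonneg_left hS2 (sq_nonneg _)
    have h7 : 0 ≤ (2 - α) * (2 * M) := mul_nonneg (by linarith) (by linarith)
    have h8 : (α - 1) ^ 2 * ((2 - α) * (2 * M)) ≤ 1 * ((2 - α) * (2 * M)) :=
      mul_le_mul_of_nonneg_right hsq h7
    linarith
  have h9 : (α - 1) * p1 ≤ (α - 1) * M := mul_le_mul_of_nonneg_left hp1M hα1
  have h10 : (α - 1) * p2 ≤ (α - 1) * M := mul_le_mul_of_nonneg_left hp2M hα1
  nlinarith

end C0ce
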