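import Pool.Agent.W_c0ce05_h38.Seq
import Pool.Agent.W_c0ce05_h38.Play
import Pool.Agent.W_c0ce05_h38.StepM
import Pool.Agent.W_c0ce05_h38.ProdM
import Pool.Agent.W_c0ce05_h38.Cnt
import Pool.Agent.W_c0ce05_h38.Comp
import Pool.Agent.W_c0ce05_h38.Asy

/-! # Maker-Breaker: no large clique for large `N` -/

set_option autoImplicit false

namespace C0ce

open scoped Classical

variable {N q : ℕ}

theorem FinM_fac_le {α : ℝ} (hα : 1 ≤ α) (hα2 : α ≤ 2) (T : ℕ) (π : ℕ → Sym2 (Fin N)) (r : ℕ)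
    (B : Finset (Fin N)) : fac α T π r B ≤ 4 := by
  have h1 : α ^ 2 ≤ 4 := by nlinarith
  unfold fac
  split_ifs <;> linarith

theorem FinM_pot_zero {α : ℝ} (hα : 1 ≤ α) (hα2 : α ≤ 2) (T : ℕ) (π : ℕ → Sym2 (Fin N)) :
    pot q (mw α T π 0) ≤ 4 * (((q : ℝ) + 1) * (N : ℝ) ^ q) := by
  have h1 : pot q (mw α T π 0) ≤ 4 * pot (N := N) q (fun _ => 1) := by
    unfold pot
    rw [Finset.mul_sum]
    refine Finset.sum_le_sum fun B _ => ?_
    have h2 : mw α T π 0 B ≤ 4 := by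
      unfold mw
      have h3 : wt α T π 0 B = 1 := rfl
      rw [h3, one_mul]
      exact FinM_fac_le hα hα2 T π 0 B
    have h3 : 0 ≤ cf q B := by
      unfold cf
      positivity
    nlinarith
  exact h1.trans (mul_le_mul_of_nonneg_left pot_one (by norm_num))

/-- the final inequality for a clique of Maker -/
theorem FinM_ineq {α β : ℝ} (hβ1 : 1 ≤ β) (hβα : β ≤ α) (hβ : β ^ 2 = 2 * α - 1) (hα2 : α ≤ 2)
    {T : ℕ} (hT : (2 : ℝ) ^ (T + 3) ≤ N * (2 - α)) (hTq : T + 4 ≤ q) (hq : 4 ≤ N.choose 2)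
    (π : ℕ → Sym2 (Fin N)) (hdiag : ∀ i < N.choose 2, ¬ Sym2.IsDiag (π i))
    (hinj : ∀ i < N.choose 2, ∀ j < N.choose 2, π i = π j → i = j)
    (h2 : ∀ r, 4 * r + 2 < N.choose 2 → ∀ e, ¬ Sym2.IsDiag e → (∀ j < 4 * r + 2, π j ≠ e) →
      P q (mw α T π r) e ≤ P q (mw α T π r) (π (4 * r + 2)))
    (h3 : ∀ r, 4 * r + 3 < N.choose 2 → ∀ e, ¬ Sym2.IsDiag e → (∀ j < 4 * r + 3, π j ≠ e) →
      P q (kill (mw α T π r) (π (4 * r + 2))) e ≤
        P q (kill (mw α T π r) (π (4 * r + 2))) (π (4 * r + 3)))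
    (A : Finset (Fin N)) (hAq : A.card = q)
    (hA : ∀ x ∈ A, ∀ y ∈ A, x ≠ y → ∃ i < N.choose 2, i % 4 < 2 ∧ π i = s(x, y)) :
    (α / β) ^ ((T + 1) * (T + 2) / 2) * β ^ (q.choose 2 - 2) ≤
      4 * (((q : ℝ) + 1) * (N : ℝ) ^ q) := by
  have hα : 1 ≤ α := hβ1.trans hβα
  have hN : 1 ≤ N := by
    rcases Nat.eq_zero_or_pos N with h | h
    · rw [h] at hq
      simp at hq
    · exact h
  have hT1 : (2 : ℝ) ^ (T + 1) ≤ N * (2 - α) := by
    refine le_trans ?_ hT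
    exact pow_le_pow_right₀ (by norm_num) (by omega)
  set R := N.choose 2 / 4 with hR
  have hR4 : 4 * R ≤ N.choose 2 := Nat.mul_div_le _ _
  have hR1 : 1 ≤ R := by omega
  have hw0 : ∀ r B, 0 ≤ wt α T π r B := fun r B => wt_nonneg hα T π r B
  have hmw0 : ∀ r B, 0 ≤ mw α T π r B := fun r B =>
    mul_nonneg (hw0 r B) (le_trans zero_le_one (one_le_fac hα T π r B))
  have hne : ∀ i j, i < N.choose 2 → j < N.choose 2 → i ≠ j → π i ≠ π j :=
    fun i j hi hj hij h => hij (hinj i hi j hj h)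
  -- the potential does not increase
  have hstep : ∀ r, r + 1 ≤ R - 1 → pot q (mw α T π (r + 1)) ≤ pot q (mw α T π r) := by
    intro r hr
    refine step_M hα hα2 hN hT1 π r ?_ ?_ ?_
    · exact h2 r (by omega) _ (hdiag _ (by omega)) fun j hj =>
        hne _ _ (by omega) (by omega) (by omega)
    · exact h3 r (by omega) _ (hdiag _ (by omega)) fun j hj =>
        hne _ _ (by omega) (by omega) (by omega)
    · exact h3 r (by omega) _ (hdiag _ (by omega)) fun j hj =>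
        hne _ _ (by omega) (by omega) (by omega)
  have hall : ∀ r, r ≤ R - 1 → pot q (mw α T π r) ≤ pot q (mw α T π 0) := by
    intro r
    induction r with
    | zero => intro _; exact le_rfl
    | succ r ih =>
      intro hr
      exact (hstep r hr).trans (ih (by omega))
  have hlast : pot q (wt α T π R) ≤ pot q (mw α T π (R - 1)) := by
    have h4 : R = (R - 1) + 1 := by omega
    rw [h4]
    show pot q (kill (kill (mw α T π (R - 1)) _) _) ≤ _
    rw [pot_kill, pot_kill]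
    have h5 := P_nonneg (q := q) (hmw0 (R - 1)) (π (4 * (R - 1) + 2))
    have h6 := P_nonneg (q := q) (kill_nonneg (hmw0 (R - 1)) (π (4 * (R - 1) + 2)))
      (π (4 * (R - 1) + 3))
    rw [Nat.add_sub_cancel]
    linarith
  have hwA : wt α T π R A ≤ 4 * (((q : ℝ) + 1) * (N : ℝ) ^ q) :=
    (single_le_pot (hw0 R) hAq).trans (hlast.trans ((hall _ le_rfl).trans
      (FinM_pot_zero hα hα2 T π)))
  refine le_trans ?_ hwA
  -- lower bound for the weight
  have hK := comp_K π (N.choose 2) A hA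
  have hdg : ∀ v ∈ A, T + 1 ≤ dg π R v A := by
    intro v hv
    have h5 := comp_dg π (N.choose 2) A hA v hv
    rw [← hR] at h5
    omega
  have halive := comp_alive π (N.choose 2) A hdiag hinj hA
  have hH := cnt T π R A (fun i hi => hdiag i (by omega))
    (fun i hi j hj => hinj i (by omega) j (by omega)) hdg (by omega)
  have hge := wt_ge hβ1 hβα hβ T π R A (fun i hi => hdiag i (by omega))
    (fun i hi j hj => hinj i (by omega) j (by omega)) (fun i hi => halive i (by omega))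
  refine le_trans ?_ hge
  have hβ0 : 0 < β := lt_of_lt_of_le one_pos hβ1
  have hr1 : 1 ≤ α / β := by
    rw [le_div_iff₀ hβ0, one_mul]
    exact hβα
  refine mul_le_mul (pow_le_pow_right₀ hr1 ?_) (pow_le_pow_right₀ hβ1 ?_) (by positivity)
    (by positivity)
  · omega
  · rw [hAq, ← hR] at hK
    omega

/-- For large `N` every strategy of Maker has a play without a Maker clique of size
`⌊c log₂ N⌋ + 1`. -/
theorem finM {α β c : ℝ} (hβ1 : 1 < β) (hβα : β ≤ α) (hβ : β ^ 2 = 2 * α - 1) (hα2 : α < 2)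
    (hc : 1 < c)
    (h : 2 * c < c ^ 2 * Real.logb 2 β + (Real.logb 2 α - Real.logb 2 β)) :
    ∃ N₀ : ℕ, ∀ N : ℕ, N₀ ≤ N → ∀ σ : List (Sym2 (Fin N)) → Sym2 (Fin N),
      (∀ l : List (Sym2 (Fin N)), l.Nodup → (∀ e ∈ l, ¬ Sym2.IsDiag e) →
        l.length < N.choose 2 → ¬ Sym2.IsDiag (σ l) ∧ σ l ∉ l) →
      ∃ π : ℕ → Sym2 (Fin N),
        (∀ i < N.choose 2, ¬ Sym2.IsDiag (π i)) ∧
        (∀ i < N.choose 2, ∀ j < N.choose 2, π i = π j → i = j) ∧
        (∀ i < N.choose 2, i % 4 < 2 → π i = σ ((List.range i).map π)) ∧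
        ¬ ∃ s : Finset (Fin N), s.card = ⌊c * Real.logb 2 N⌋₊ + 1 ∧
          ∀ x ∈ s, ∀ y ∈ s, x ≠ y → ∃ i < N.choose 2, i % 4 < 2 ∧ π i = s(x, y) := by
  obtain ⟨k, hk⟩ := exists_k hα2
  have hev := (hk.and ((asy hβ1 hβα hc h k).and (asy_T hc k))).and
    (Filter.eventually_ge_atTop 4)
  obtain ⟨N₀, hN₀⟩ := Filter.eventually_atTop.1 hev
  refine ⟨N₀, fun N hN σ hσ => ?_⟩
  obtain ⟨⟨hk1, hasy, hT4⟩, hN4⟩ := hN₀ N hN
  have : NeZero N := ⟨by omega⟩
  set T := Nat.log 2 N - k with hT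
  set q := ⌊c * Real.logb 2 N⌋₊ + 1 with hq
  obtain ⟨π, h1, h2, h3, h4⟩ := play_exists (by omega) (fun i => i % 4 < 2) σ hσ (valM q α T)
  refine ⟨π, h1, h2, h3, ?_⟩
  rintro ⟨A, hAq, hA⟩
  have hch : 4 ≤ N.choose 2 := by
    have h5 : Nat.choose 4 2 ≤ N.choose 2 := Nat.choose_le_choose 2 hN4
    have h6 : Nat.choose 4 2 = 6 := by decide
    omega
  have hcon := FinM_ineq hβ1.le hβα hβ hα2.le hk1 hT4 hch π h1 h2 ?_ ?_ A hAq hA
  · have h5 := hasy
    rw [mul_assoc] at h5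
    exact absurd h5 (not_lt.2 hcon)
  · intro r hr e he hfree
    have h5 := h4 (4 * r + 2) hr (by omega) e he hfree
    rwa [valM_two, valM_two] at h5
  · intro r hr e he hfree
    have h5 := h4 (4 * r + 3) hr (by omega) e he hfree
    rwa [valM_three, valM_three] at h5

end C0ce
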