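import Pool.Agent.W_c0ce05_h38.Defs

/-! # Elementary facts on potentials -/

set_option autoImplicit false

namespace C0ce

open scoped Classical

variable {N q : ℕ}

theorem pot_nonneg {f : Finset (Fin N) → ℝ} (hf : ∀ B, 0 ≤ f B) : 0 ≤ pot q f := by
  refine Finset.sum_nonneg fun B _ => mul_nonneg ?_ (hf B)
  unfold cf
  positivity

theorem P_nonneg {f : Finset (Fin N) → ℝ} (hf : ∀ B, 0 ≤ f B) (e : Sym2 (Fin N)) :
    0 ≤ P q f e := by
  refine Finset.sum_nonneg fun B _ => mul_nonneg ?_ (hf B)
  unfold cf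
  positivity

theorem P_mono {f g : Finset (Fin N) → ℝ} (hfg : ∀ B, f B ≤ g B) (e : Sym2 (Fin N)) :
    P q f e ≤ P q g e := by
  refine Finset.sum_le_sum fun B _ => mul_le_mul_of_nonneg_left (hfg B) ?_
  unfold cf
  positivity

theorem kill_nonneg {f : Finset (Fin N) → ℝ} (hf : ∀ B, 0 ≤ f B) (e : Sym2 (Fin N))
    (B : Finset (Fin N)) : 0 ≤ kill f e B := by
  unfold kill
  split
  · exact le_rfl
  · exact hf B

theorem kill_le {f : Finset (Fin N) → ℝ} (hf : ∀ B, 0 ≤ f B) (e : Sym2 (Fin N))
    (B : Finset (Fin N)) : kill f e B ≤ f B := by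
  unfold kill
  split
  · exact hf B
  · exact le_rfl

theorem pot_kill (f : Finset (Fin N) → ℝ) (e : Sym2 (Fin N)) :
    pot q (kill f e) = pot q f - P q f e := by
  unfold pot P
  rw [← Finset.sum_filter_add_sum_filter_not (Fam N q) (fun B => inB e B) (fun B => cf q B * f B),
    add_sub_cancel_left,
    ← Finset.sum_filter_add_sum_filter_not (Fam N q) (fun B => inB e B)
      (fun B => cf q B * kill f e B)]
  rw [Finset.sum_eq_zero (s := (Fam N q).filter (fun B => inB e B)), zero_add]
  · refine Finset.sum_congr rfl fun B hB => ?_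
    rw [kill, if_neg (Finset.mem_filter.1 hB).2]
  · intro B hB
    rw [kill, if_pos (Finset.mem_filter.1 hB).2, mul_zero]

/-- weight of the sets which contain both edges -/
noncomputable def PP (q : ℕ) (f : Finset (Fin N) → ℝ) (e e' : Sym2 (Fin N)) : ℝ :=
  ∑ B ∈ (Fam N q).filter (fun B => inB e B ∧ inB e' B), cf q B * f B

theorem P_kill (f : Finset (Fin N) → ℝ) (e e' : Sym2 (Fin N)) :
    P q (kill f e) e' = P q f e' - PP q f e e' := by
  unfold P PP
  have h1 : (Fam N q).filter (fun B => inB e B ∧ inB e' B) =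
      ((Fam N q).filter (fun B => inB e' B)).filter (fun B => inB e B) := by
    ext B
    simp only [Finset.mem_filter]
    tauto
  rw [h1, ← Finset.sum_filter_add_sum_filter_not ((Fam N q).filter (fun B => inB e' B))
    (fun B => inB e B) (fun B => cf q B * f B), add_sub_cancel_left,
    ← Finset.sum_filter_add_sum_filter_not ((Fam N q).filter (fun B => inB e' B))
    (fun B => inB e B) (fun B => cf q B * kill f e B)]
  rw [Finset.sum_eq_zero (s := ((Fam N q).filter (fun B => inB e' B)).filter (fun B => inB e B)),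
    zero_add]
  · refine Finset.sum_congr rfl fun B hB => ?_
    rw [kill, if_neg (Finset.mem_filter.1 hB).2]
  · intro B hB
    rw [kill, if_pos (Finset.mem_filter.1 hB).2, mul_zero]

theorem single_le_pot {f : Finset (Fin N) → ℝ} (hf : ∀ B, 0 ≤ f B) {A : Finset (Fin N)}
    (hA : A.card = q) : f A ≤ pot q f := by
  have h1 : cf q A * f A ≤ pot q f := by
    refine Finset.single_le_sum (f := fun B => cf q B * f B) (fun B _ => mul_nonneg ?_ (hf B)) ?_
    · unfold cf
      positivity
    · exact Finset.mem_filter.2 ⟨Finset.mem_univ _, hA.le⟩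
  have h2 : cf q A = 1 := by
    unfold cf
    rw [hA, Nat.sub_self, pow_zero]
  rwa [h2, one_mul] at h1

end C0ce
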