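import Pool.Agent.W_c0ce05_h38.Congr

/-! # Lists of moves as sequences; the functions maximised by our player -/

set_option autoImplicit false

namespace C0ce

open scoped Classical

variable {N : ℕ} [NeZero N]

/-- a list of moves as a sequence -/
def toSeq (l : List (Sym2 (Fin N))) (i : ℕ) : Sym2 (Fin N) := l.getD i s(0, 0)

theorem toSeq_map (π : ℕ → Sym2 (Fin N)) (n : ℕ) :
    ∀ i < n, toSeq ((List.range n).map π) i = π i := by
  intro i hi
  unfold toSeq
  rw [List.getD_eq_getElem _ _ (by rw [List.length_map, List.length_range]; exact hi),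
    List.getElem_map, List.getElem_range]

/-- the function which Breaker maximises -/
noncomputable def valM (q : ℕ) (α : ℝ) (T : ℕ) (l : List (Sym2 (Fin N))) (e : Sym2 (Fin N)) : ℝ :=
  if l.length % 4 = 2 then P q (mw α T (toSeq l) (l.length / 4)) e
  else P q (kill (mw α T (toSeq l) (l.length / 4)) (toSeq l (l.length - 1))) e

/-- the function which Avoider maximises -/
noncomputable def valA (q : ℕ) (α : ℝ) (T : ℕ) (l : List (Sym2 (Fin N))) (e : Sym2 (Fin N)) : ℝ :=
  if l.length % 4 = 0 then - Q q α T (toSeq l) (l.length / 4) (wtA α T (toSeq l) (l.length / 4)) e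
  else - Q q α T (toSeq l) (l.length / 4)
    (fun B => wtA α T (toSeq l) (l.length / 4) B *
      facA α T (toSeq l) (l.length / 4) (toSeq l (l.length - 1)) B) e

theorem valM_two (q : ℕ) (α : ℝ) (T : ℕ) (π : ℕ → Sym2 (Fin N)) (r : ℕ) (e : Sym2 (Fin N)) :
    valM q α T ((List.range (4 * r + 2)).map π) e = P q (mw α T π r) e := by
  have hl : ((List.range (4 * r + 2)).map π).length = 4 * r + 2 := by
    rw [List.length_map, List.length_range]
  unfold valM
  rw [hl, if_pos (by omega)]
  have h4 : (4 * r + 2) / 4 = r := by omega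
  rw [h4, mw_congr α T r (fun i hi => toSeq_map π (4 * r + 2) i hi)]

theorem valM_three (q : ℕ) (α : ℝ) (T : ℕ) (π : ℕ → Sym2 (Fin N)) (r : ℕ) (e : Sym2 (Fin N)) :
    valM q α T ((List.range (4 * r + 3)).map π) e =
      P q (kill (mw α T π r) (π (4 * r + 2))) e := by
  have hl : ((List.range (4 * r + 3)).map π).length = 4 * r + 3 := by
    rw [List.length_map, List.length_range]
  unfold valM
  rw [hl, if_neg (by omega)]
  have h4 : (4 * r + 3) / 4 = r := by omega
  have h5 : 4 * r + 3 - 1 = 4 * r + 2 := by omega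
  rw [h4, h5, mw_congr α T r (fun i hi => toSeq_map π (4 * r + 3) i (by omega)),
    toSeq_map π (4 * r + 3) _ (by omega)]

theorem valA_zero (q : ℕ) (α : ℝ) (T : ℕ) (π : ℕ → Sym2 (Fin N)) (r : ℕ) (e : Sym2 (Fin N)) :
    valA q α T ((List.range (4 * r)).map π) e = - Q q α T π r (wtA α T π r) e := by
  have hl : ((List.range (4 * r)).map π).length = 4 * r := by
    rw [List.length_map, List.length_range]
  unfold valA
  rw [hl, if_pos (by omega)]
  have h4 : (4 * r) / 4 = r := by omega
  rw [h4, wtA_congr α T r (fun i hi => toSeq_map π (4 * r) i hi),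
    Q_congr α T r (fun i hi => toSeq_map π (4 * r) i hi)]

theorem valA_one (q : ℕ) (α : ℝ) (T : ℕ) (π : ℕ → Sym2 (Fin N)) (r : ℕ) (e : Sym2 (Fin N)) :
    valA q α T ((List.range (4 * r + 1)).map π) e =
      - Q q α T π r (fun B => wtA α T π r B * facA α T π r (π (4 * r)) B) e := by
  have hl : ((List.range (4 * r + 1)).map π).length = 4 * r + 1 := by
    rw [List.length_map, List.length_range]
  unfold valA
  rw [hl, if_neg (by omega)]
  have h4 : (4 * r + 1) / 4 = r := by omega
  have h5 : 4 * r + 1 - 1 = 4 * r := by omega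
  rw [h4, h5, wtA_congr α T r (fun i hi => toSeq_map π (4 * r + 1) i (by omega)),
    Q_congr α T r (fun i hi => toSeq_map π (4 * r + 1) i (by omega)),
    toSeq_map π (4 * r + 1) _ (by omega)]
  congr 2
  funext B
  rw [facA_congr α T (fun i hi => toSeq_map π (4 * r + 1) i (by omega))]

end C0ce
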